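import Mathlib

set_option autoImplicit false
set_option linter.unusedSectionVars false

/-!
The decomposition of the permutation character of the affine group.
-/

namespace Pool.Agent.Q213.ST

open scoped Classical

section
variable {V : Type} [Group V] {l : ℕ} [hl : Fact l.Prime]
  (κ : V →* (ZMod l)ˣ) (c : V → ZMod l) (hc : ∀ g h, c (g * h) = c g + (κ g : ZMod l) * c h)
include hc

theorem c_one : c 1 = 0 := by
  have h := hc 1 1
  rw [mul_one, map_one, Units.val_one, one_mul] at h
  simpa using h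

theorem c_inv (g : V) : c g⁻¹ = -((κ g)⁻¹ : (ZMod l)ˣ) * c g := by
  have h := hc g⁻¹ g
  rw [inv_mul_cancel, c_one κ c hc, map_inv] at h
  linear_combination -h

theorem c_conj (x g : V) : c (x⁻¹ * g * x) =
    ((κ x)⁻¹ : (ZMod l)ˣ) * (c g + (κ g : ZMod l) * c x - c x) := by
  rw [hc, hc, c_inv κ c hc, map_mul, map_inv, Units.val_mul]
  ring

omit hc in
theorem sum_char (e : AddChar (ZMod l) ℂ) (he : e ≠ 1) (t : ZMod l) :
    ∑ u : (ZMod l)ˣ, e ((u : ZMod l) * t) = if t = 0 then (l : ℂ) - 1 else -1 := by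
  have h1 : ∑ y : ZMod l, e (y * t) = if t = 0 then (l : ℂ) else 0 := by
    split_ifs with ht
    · subst ht
      simp [ZMod.card]
    · have h2 : ∑ y : ZMod l, e (y * t) = ∑ y : ZMod l, e y := by
        refine Fintype.sum_bijective (fun y => y * t) ?_ _ _ (fun y => rfl)
        exact mulRight_bijective₀ t ht
      rw [h2]
      exact AddChar.sum_eq_zero_of_ne_one he
  have h3 : ∑ y : ZMod l, e (y * t) = e (0 * t) + ∑ u : (ZMod l)ˣ, e ((u : ZMod l) * t) := by
    rw [← Finset.add_sum_erase _ _ (Finset.mem_univ (0 : ZMod l))]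
    congr 1
    symm
    refine Finset.sum_bij (fun (u : (ZMod l)ˣ) _ => (u : ZMod l)) ?_ ?_ ?_ ?_
    · intro u _
      exact Finset.mem_erase.2 ⟨u.ne_zero, Finset.mem_univ _⟩
    · intro u _ u' _ h
      exact Units.ext h
    · intro y hy
      have hy0 : y ≠ 0 := (Finset.mem_erase.1 hy).1
      exact ⟨Units.mk0 y hy0, Finset.mem_univ _, rfl⟩
    · intro u _; rfl
  rw [h1, zero_mul, AddChar.map_zero_eq_one] at h3
  split_ifs with ht
  · rw [if_pos ht] at h3
    rw [h3]; ring
  · rw [if_neg ht] at h3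
    linear_combination -h3

/-- the relation between permutation characters and induced linear characters -/
theorem aff_relation (hs : Function.Surjective c) (U1 U2 : Subgroup V)
    (hU1 : ∀ g, g ∈ U1 ↔ κ g = 1) (hU2 : ∀ g, g ∈ U2 ↔ c g = 0)
    (e : AddChar (ZMod l) ℂ) (he : e ≠ 1) (g : V) :
    1 + ∑ q : (ZMod l)ˣ ⧸ κ.range, ∑ᶠ x : V ⧸ U1,
      (if x.out⁻¹ * g * x.out ∈ U1 then
        e (((q.out : (ZMod l)ˣ) : ZMod l) * c (x.out⁻¹ * g * x.out)) else 0) =
    ∑ᶠ x : V ⧸ U2, (if x.out⁻¹ * g * x.out ∈ U2 then (1 : ℂ) else 0) := by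
  -- the cosets of `U1`
  have hinj1 : Function.Injective (fun x : V ⧸ U1 => κ x.out) := by
    intro x y hxy
    have h1 : x.out⁻¹ * y.out ∈ U1 := by
      rw [hU1, map_mul, map_inv]
      simp only at hxy
      rw [hxy, inv_mul_cancel]
    rw [← QuotientGroup.out_eq' x, ← QuotientGroup.out_eq' y]
    exact QuotientGroup.eq.2 h1
  have hf1 : Finite (V ⧸ U1) := Finite.of_injective _ hinj1
  have : Fintype (V ⧸ U1) := Fintype.ofFinite _
  -- the cosets of `U2`
  have hcU2 : ∀ x y : V, c x = c y ↔ x⁻¹ * y ∈ U2 := by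
    intro x y
    rw [hU2, hc, c_inv κ c hc, map_inv]
    have h0 : (((κ x)⁻¹ : (ZMod l)ˣ) : ZMod l) ≠ 0 := Units.ne_zero _
    constructor
    · intro h
      rw [h]; ring
    · intro h
      have h2 : (((κ x)⁻¹ : (ZMod l)ˣ) : ZMod l) * (c y - c x) = 0 := by linear_combination h
      rcases mul_eq_zero.1 h2 with h3 | h3
      · exact absurd h3 h0
      · exact (sub_eq_zero.1 h3).symm
  have hbij2 : Function.Bijective (fun x : V ⧸ U2 => c x.out) := by
    constructor
    · intro x y hxy
      rw [← QuotientGroup.out_eq' x, ← QuotientGroup.out_eq' y]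
      exact QuotientGroup.eq.2 ((hcU2 _ _).1 hxy)
    · intro t
      obtain ⟨v, rfl⟩ := hs t
      refine ⟨(v : V ⧸ U2), ?_⟩
      rw [hcU2, ← QuotientGroup.eq, QuotientGroup.out_eq']
  have hf2 : Finite (V ⧸ U2) := Finite.of_injective _ hbij2.1
  have : Fintype (V ⧸ U2) := Fintype.ofFinite _
  -- right side
  have hR : ∑ᶠ x : V ⧸ U2, (if x.out⁻¹ * g * x.out ∈ U2 then (1 : ℂ) else 0) =
      ∑ y : ZMod l, if c g + (κ g : ZMod l) * y - y = 0 then (1 : ℂ) else 0 := by
    rw [finsum_eq_sum_of_fintype]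
    refine Fintype.sum_bijective _ hbij2 _ _ (fun x => ?_)
    have h1 : x.out⁻¹ * g * x.out ∈ U2 ↔ c g + (κ g : ZMod l) * c x.out - c x.out = 0 := by
      rw [hU2, c_conj κ c hc]
      constructor
      · intro h
        rcases mul_eq_zero.1 h with h3 | h3
        · exact absurd h3 (Units.ne_zero _)
        · exact h3
      · intro h
        rw [h, mul_zero]
    simp only [h1]
  rw [hR]
  by_cases hg : κ g = 1
  · -- `g ∈ U1`
    have hL : ∑ q : (ZMod l)ˣ ⧸ κ.range, ∑ᶠ x : V ⧸ U1,
        (if x.out⁻¹ * g * x.out ∈ U1 then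
          e (((q.out : (ZMod l)ˣ) : ZMod l) * c (x.out⁻¹ * g * x.out)) else 0) =
        ∑ u : (ZMod l)ˣ, e ((u : ZMod l) * c g) := by
      rw [Finset.sum_congr rfl (fun q _ => finsum_eq_sum_of_fintype _), ← Finset.sum_product',
        Finset.univ_product_univ]
      refine Fintype.sum_bijective
        (fun t : ((ZMod l)ˣ ⧸ κ.range) × (V ⧸ U1) => t.1.out * (κ t.2.out)⁻¹) ?_ _ _ ?_
      · constructor
        · rintro ⟨q, x⟩ ⟨q', x'⟩ h
          simp only at h
          have h1 : q = q' := by
            rw [← QuotientGroup.out_eq' q, ← QuotientGroup.out_eq' q']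
            apply QuotientGroup.eq.2
            refine ⟨(x.out)⁻¹ * x'.out, ?_⟩
            rw [map_mul, map_inv]
            have h2 : q'.out = q.out * (κ x.out)⁻¹ * κ x'.out := by rw [h]; group
            rw [h2]; group
          subst h1
          have h2 : κ x.out = κ x'.out := by
            have h3 := mul_left_cancel h
            exact inv_injective h3
          rw [hinj1 h2]
        · intro u
          have h1 : ((u : (ZMod l)ˣ ⧸ κ.range).out)⁻¹ * u ∈ κ.range := by
            rw [← QuotientGroup.eq, QuotientGroup.out_eq']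
          obtain ⟨v, hv⟩ := h1
          refine ⟨((u : (ZMod l)ˣ ⧸ κ.range), ((v⁻¹ : V) : V ⧸ U1)), ?_⟩
          simp only
          have h2 : κ ((v⁻¹ : V) : V ⧸ U1).out = κ v⁻¹ := by
            have h3 : (((v⁻¹ : V) : V ⧸ U1).out)⁻¹ * v⁻¹ ∈ U1 := by
              rw [← QuotientGroup.eq, QuotientGroup.out_eq']
            rw [hU1, map_mul, map_inv, inv_mul_eq_one] at h3
            exact h3
          rw [h2, map_inv, inv_inv, hv]
          group
      · rintro ⟨q, x⟩
        have h1 : x.out⁻¹ * g * x.out ∈ U1 := by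
          rw [hU1, map_mul, map_mul, hg, mul_one, map_inv, inv_mul_cancel]
        simp only [if_pos h1]
        rw [c_conj κ c hc, hg, Units.val_one, one_mul, add_sub_cancel_right, Units.val_mul]
        congr 1
        ring
    rw [hL, sum_char e he, hg]
    simp only [Units.val_one, one_mul, add_sub_cancel_right]
    by_cases h0 : c g = 0
    · simp [h0, ZMod.card]
    · simp [h0]
  · -- `g ∉ U1`
    have hL : ∑ q : (ZMod l)ˣ ⧸ κ.range, ∑ᶠ x : V ⧸ U1,
        (if x.out⁻¹ * g * x.out ∈ U1 then
          e (((q.out : (ZMod l)ˣ) : ZMod l) * c (x.out⁻¹ * g * x.out)) else 0) = 0 := by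
      apply Finset.sum_eq_zero
      intro q _
      rw [finsum_eq_sum_of_fintype]
      apply Finset.sum_eq_zero
      intro x _
      rw [if_neg]
      rw [hU1, map_mul, map_mul, map_inv]
      intro h
      apply hg
      have h2 : κ g = κ x.out * ((κ x.out)⁻¹ * κ g * κ x.out) * (κ x.out)⁻¹ := by group
      rw [h2, h]
      group
    rw [hL, add_zero]
    have hk : (1 : ZMod l) - (κ g : ZMod l) ≠ 0 := by
      intro h
      apply hg
      apply Units.ext
      rw [Units.val_one]
      exact (sub_eq_zero.1 h).symm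
    have h1 : ∀ y : ZMod l, (c g + (κ g : ZMod l) * y - y = 0) ↔
        y = c g / (1 - (κ g : ZMod l)) := by
      intro y
      rw [eq_div_iff hk]
      constructor
      · intro h; linear_combination -h
      · intro h; linear_combination -h
    simp only [h1]
    rw [Finset.sum_ite_eq' Finset.univ, if_pos (Finset.mem_univ _)]

end

end Pool.Agent.Q213.ST
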