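import Pool.Agent.Q213.ST.Pure

set_option autoImplicit false
set_option linter.unusedSectionVars false

/-!
Descent of additive inductive functions.
-/

namespace Pool.Agent.Q213.ST

open Pool.Agent.Q246.BI
open scoped Classical

section
variable {K : Type} [Field K] [NumberField K]

theorem IsCharacter.add' {F : IntermediateField K (AlgebraicClosure K)}
    {χ χ' : F.fixingSubgroup → ℂ} (h : IsCharacter F χ) (h' : IsCharacter F χ') :
    IsCharacter F (χ + χ') := by
  obtain ⟨n, τ, ⟨E, hE, hs⟩, hτ⟩ := h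
  obtain ⟨n', τ', ⟨E', hE', hs'⟩, hτ'⟩ := h'
  let ρ : F.fixingSubgroup →* Matrix (Fin n ⊕ Fin n') (Fin n ⊕ Fin n') ℂ :=
    { toFun := fun g => Matrix.fromBlocks (τ g : Matrix (Fin n) (Fin n) ℂ) 0 0
        (τ' g : Matrix (Fin n') (Fin n') ℂ)
      map_one' := by
        rw [map_one, map_one, Units.val_one, Units.val_one, Matrix.fromBlocks_one]
      map_mul' := fun a b => by
        rw [map_mul, map_mul, Units.val_mul, Units.val_mul, Matrix.fromBlocks_multiply]
        simp }
  let e := Fintype.equivFin (Fin n ⊕ Fin n')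
  let σ := (MonoidHomClass.toMonoidHom (Matrix.reindexAlgEquiv ℂ ℂ e)).comp ρ
  refine ⟨_, σ.toHomUnits, ⟨E ⊔ E', inferInstance, fun g hg => ?_⟩, fun g => ?_⟩
  · apply Units.ext
    change (Matrix.reindexAlgEquiv ℂ ℂ e) (ρ g) = 1
    have h1 : ρ g = 1 := by
      change Matrix.fromBlocks (τ g : Matrix (Fin n) (Fin n) ℂ) 0 0
        (τ' g : Matrix (Fin n') (Fin n') ℂ) = 1
      rw [hs g (IntermediateField.fixingSubgroup_antitone le_sup_left hg),
        hs' g (IntermediateField.fixingSubgroup_antitone le_sup_right hg), Units.val_one,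
        Units.val_one, Matrix.fromBlocks_one]
    rw [h1, map_one]
  · change (χ + χ') g = ((Matrix.reindexAlgEquiv ℂ ℂ e) (ρ g)).trace
    have h1 : ((Matrix.reindexAlgEquiv ℂ ℂ e) (ρ g)).trace = (ρ g).trace := by
      unfold Matrix.trace
      exact (Fintype.sum_equiv e _ _ (fun x => by simp)).symm
    rw [h1]
    change _ = (Matrix.fromBlocks (τ g : Matrix (Fin n) (Fin n) ℂ) 0 0
        (τ' g : Matrix (Fin n') (Fin n') ℂ)).trace
    rw [Pi.add_apply, hτ, hτ']
    unfold Matrix.trace
    rw [Fintype.sum_sum_type]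
    rfl

theorem one_smooth (F : IntermediateField K (AlgebraicClosure K)) {M : Type} [Group M] :
    Smooth F (1 : F.fixingSubgroup →* M) :=
  ⟨⊥, inferInstance, fun _ _ => rfl⟩

variable {A : Type} [AddCommGroup A]

/-- the relation for additive inductive functions -/
theorem D_relation (D : ∀ F : IntermediateField K (AlgebraicClosure K), (F.fixingSubgroup → ℂ) → A)
    (hadd : ∀ F : IntermediateField K (AlgebraicClosure K), FiniteDimensional K F →
      ∀ χ χ' : F.fixingSubgroup → ℂ, IsCharacter F χ → IsCharacter F χ' →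
        D F (χ + χ') = D F χ + D F χ')
    (hind : ∀ F F' : IntermediateField K (AlgebraicClosure K), F ≤ F' → FiniteDimensional K F' →
      ∀ χ : F'.fixingSubgroup → ℂ, IsCharacter F' χ → D F (induced F F' χ) = D F' χ)
    {l : ℕ} (hl : Fact l.Prime) {ζ b : AlgebraicClosure K}
    {F : IntermediateField K (AlgebraicClosure K)} (hF : FiniteDimensional K F)
    (hd : PureData F l ζ b) {χ : F.fixingSubgroup → ℂ} (hχ : IsCharacter F χ)
    (h1 : ∀ θ : (ad F ζ).fixingSubgroup →* ℂˣ, Smooth (ad F ζ) θ →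
      D (ad F ζ) (fun g => χ (inc (le_sup_left : F ≤ ad F ζ) g) * ((θ g : ℂˣ) : ℂ)) = 0)
    (h2 : D (ad F b) (fun g => χ (inc (le_sup_left : F ≤ ad F b) g)) = 0) : D F χ = 0 := by
  obtain ⟨n, θ, hθ, hrel⟩ := char_relation hd hF χ (isCharacter_conj hχ)
  have hc1 : ∀ i, IsCharacter F (induced F (ad F ζ)
      (fun g => χ (inc (le_sup_left : F ≤ ad F ζ) g) * ((θ i g : ℂˣ) : ℂ))) := fun i =>
    isCharacter_induced le_sup_left (isCharacter_res le_sup_left hχ (θ i) (hθ i))
  have key : ∀ s : Finset (Fin n), IsCharacter F (χ + ∑ i ∈ s, induced F (ad F ζ)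
      (fun g => χ (inc (le_sup_left : F ≤ ad F ζ) g) * ((θ i g : ℂˣ) : ℂ))) ∧
      D F (χ + ∑ i ∈ s, induced F (ad F ζ)
      (fun g => χ (inc (le_sup_left : F ≤ ad F ζ) g) * ((θ i g : ℂˣ) : ℂ))) = D F χ := by
    intro s
    induction s using Finset.induction_on with
    | empty => rw [Finset.sum_empty, add_zero]; exact ⟨hχ, rfl⟩
    | insert i s hi ih =>
      rw [Finset.sum_insert hi, add_left_comm]
      refine ⟨IsCharacter.add' (hc1 i) ih.1, ?_⟩
      rw [hadd F hF _ _ (hc1 i) ih.1, ih.2, hind F (ad F ζ) le_sup_left inferInstance _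
        (isCharacter_res le_sup_left hχ (θ i) (hθ i)), h1 (θ i) (hθ i), zero_add]
  have hres : IsCharacter (ad F b) (fun g => χ (inc (le_sup_left : F ≤ ad F b) g)) := by
    have h3 := isCharacter_res (le_sup_left : F ≤ ad F b) hχ 1 (one_smooth _)
    have h4 : (fun g => χ (inc (le_sup_left : F ≤ ad F b) g) *
        (((1 : (ad F b).fixingSubgroup →* ℂˣ) g : ℂˣ) : ℂ)) =
        (fun g => χ (inc (le_sup_left : F ≤ ad F b) g)) := by
      funext g
      rw [MonoidHom.one_apply, Units.val_one, mul_one]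
    rwa [h4] at h3
  rw [← (key Finset.univ).2, hrel, hind F (ad F b) le_sup_left inferInstance _ hres, h2]

/-- descent for all characters -/
theorem descent (D : ∀ F : IntermediateField K (AlgebraicClosure K), (F.fixingSubgroup → ℂ) → A)
    (hadd : ∀ F : IntermediateField K (AlgebraicClosure K), FiniteDimensional K F →
      ∀ χ χ' : F.fixingSubgroup → ℂ, IsCharacter F χ → IsCharacter F χ' →
        D F (χ + χ') = D F χ + D F χ')
    (hind : ∀ F F' : IntermediateField K (AlgebraicClosure K), F ≤ F' → FiniteDimensional K F' →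
      ∀ χ : F'.fixingSubgroup → ℂ, IsCharacter F' χ → D F (induced F F' χ) = D F' χ)
    {l : ℕ} (hl : Fact l.Prime) {ζ b : AlgebraicClosure K}
    {F : IntermediateField K (AlgebraicClosure K)} (hF : FiniteDimensional K F)
    (hd : PureData F l ζ b)
    (h1 : ∀ χ : (ad F ζ).fixingSubgroup → ℂ, IsCharacter (ad F ζ) χ → D (ad F ζ) χ = 0)
    (h2 : ∀ χ : (ad F b).fixingSubgroup → ℂ, IsCharacter (ad F b) χ → D (ad F b) χ = 0)
    {χ : F.fixingSubgroup → ℂ} (hχ : IsCharacter F χ) : D F χ = 0 := by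
  refine D_relation D hadd hind hl hF hd hχ (fun θ hθ => ?_) ?_
  · exact h1 _ (isCharacter_res le_sup_left hχ θ hθ)
  · apply h2
    have h3 := isCharacter_res (le_sup_left : F ≤ ad F b) hχ 1 (one_smooth _)
    have h4 : (fun g => χ (inc (le_sup_left : F ≤ ad F b) g) *
        (((1 : (ad F b).fixingSubgroup →* ℂˣ) g : ℂˣ) : ℂ)) =
        (fun g => χ (inc (le_sup_left : F ≤ ad F b) g)) := by
      funext g
      rw [MonoidHom.one_apply, Units.val_one, mul_one]
    rwa [h4] at h3

/-- descent for linear characters -/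
theorem descent_lin (D : ∀ F : IntermediateField K (AlgebraicClosure K),
      (F.fixingSubgroup → ℂ) → A)
    (hadd : ∀ F : IntermediateField K (AlgebraicClosure K), FiniteDimensional K F →
      ∀ χ χ' : F.fixingSubgroup → ℂ, IsCharacter F χ → IsCharacter F χ' →
        D F (χ + χ') = D F χ + D F χ')
    (hind : ∀ F F' : IntermediateField K (AlgebraicClosure K), F ≤ F' → FiniteDimensional K F' →
      ∀ χ : F'.fixingSubgroup → ℂ, IsCharacter F' χ → D F (induced F F' χ) = D F' χ)
    {l : ℕ} (hl : Fact l.Prime) {ζ b : AlgebraicClosure K}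
    {F : IntermediateField K (AlgebraicClosure K)} (hF : FiniteDimensional K F)
    (hd : PureData F l ζ b) (ψ : F.fixingSubgroup →* ℂˣ) (hψ : Smooth F ψ)
    (h1 : ∀ θ : (ad F ζ).fixingSubgroup →* ℂˣ, Smooth (ad F ζ) θ →
      D (ad F ζ) (fun g => ((θ g : ℂˣ) : ℂ)) = 0)
    (h2 : D (ad F b) (fun g => ((ψ (inc (le_sup_left : F ≤ ad F b) g) : ℂˣ) : ℂ)) = 0) :
    D F (fun g => ((ψ g : ℂˣ) : ℂ)) = 0 := by
  refine D_relation D hadd hind hl hF hd (lin_isCharacter F ψ hψ) (fun θ hθ => ?_) h2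
  have h3 := h1 (ψ.comp (inc (le_sup_left : F ≤ ad F ζ)) * θ) ?_
  · exact h3
  · obtain ⟨E, hE, hs⟩ := hψ
    obtain ⟨E', hE', hs'⟩ := hθ
    refine ⟨E ⊔ E', inferInstance, fun g hg => ?_⟩
    rw [MonoidHom.mul_apply, MonoidHom.comp_apply,
      hs (inc _ g) (IntermediateField.fixingSubgroup_antitone le_sup_left hg),
      hs' g (IntermediateField.fixingSubgroup_antitone le_sup_right hg), one_mul]

end

end Pool.Agent.Q213.ST
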