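import Pool.Agent.Q213.ST.NT

set_option autoImplicit false
set_option linter.unusedSectionVars false

/-!
Transitivity of induction and the induction theorems with large base fields.
-/

namespace Pool.Agent.Q213.ST

open Pool.Agent.Q246.BI
open scoped Classical

section
variable {V W : Type} [Group V] [Group W]

theorem coset_trans (i : W →* V) (R S : Subgroup V) (T : Subgroup W) (hR : ∀ v, v ∈ R ↔ ∃ w, i w = v)
    (hT : ∀ w, w ∈ T ↔ i w ∈ S) (hSR : S ≤ R) [Finite (V ⧸ S)] [Finite (V ⧸ R)] [Finite (W ⧸ T)]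
    (η : V → ℂ) (hη : ∀ v s, s ∈ S → η (s⁻¹ * v * s) = η v) (g : V) :
    ∑ᶠ x : V ⧸ R, ∑ᶠ y : W ⧸ T, η ((x.out * i y.out)⁻¹ * g * (x.out * i y.out)) =
      ∑ᶠ z : V ⧸ S, η (z.out⁻¹ * g * z.out) := by
  have : Fintype (V ⧸ S) := Fintype.ofFinite _
  have : Fintype (V ⧸ R) := Fintype.ofFinite _
  have : Fintype (W ⧸ T) := Fintype.ofFinite _
  simp only [finsum_eq_sum_of_fintype]
  rw [← Finset.sum_product', Finset.univ_product_univ]
  refine Fintype.sum_bijective
    (fun t : (V ⧸ R) × (W ⧸ T) => ((t.1.out * i t.2.out : V) : V ⧸ S)) ?_ _ _ ?_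
  · constructor
    · rintro ⟨x, y⟩ ⟨x', y'⟩ h
      have h1 : (x.out * i y.out)⁻¹ * (x'.out * i y'.out) ∈ S := QuotientGroup.eq.1 h
      have h2 : x = x' := by
        rw [← QuotientGroup.out_eq' x, ← QuotientGroup.out_eq' x']
        apply QuotientGroup.eq.2
        have h3 := R.mul_mem (R.mul_mem ((hR _).2 ⟨y.out, rfl⟩) (hSR h1))
          (R.inv_mem ((hR _).2 ⟨y'.out, rfl⟩))
        have h4 : i y.out * ((x.out * i y.out)⁻¹ * (x'.out * i y'.out)) * (i y'.out)⁻¹ =
            x.out⁻¹ * x'.out := by group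
        rwa [h4] at h3
      subst h2
      have h5 : (x.out * i y.out)⁻¹ * (x.out * i y'.out) = i (y.out⁻¹ * y'.out) := by
        rw [map_mul, map_inv]; group
      rw [h5, ← hT] at h1
      have h6 : y = y' := by
        rw [← QuotientGroup.out_eq' y, ← QuotientGroup.out_eq' y']
        exact QuotientGroup.eq.2 h1
      rw [h6]
    · intro z
      have h1 : ((z.out : V ⧸ R)).out⁻¹ * z.out ∈ R := by
        rw [← QuotientGroup.eq, QuotientGroup.out_eq']
      obtain ⟨w, hw⟩ := (hR _).1 h1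
      refine ⟨((z.out : V ⧸ R), (w : W ⧸ T)), ?_⟩
      have h2 : ((w : W ⧸ T)).out⁻¹ * w ∈ T := by
        rw [← QuotientGroup.eq, QuotientGroup.out_eq']
      rw [hT, map_mul, map_inv, hw] at h2
      conv_rhs => rw [← QuotientGroup.out_eq' z]
      apply QuotientGroup.eq.2
      have h3 : ((z.out : V ⧸ R).out * i (w : W ⧸ T).out)⁻¹ * z.out =
          (i (w : W ⧸ T).out)⁻¹ * ((z.out : V ⧸ R).out⁻¹ * z.out) := by group
      rw [h3]
      exact h2
  · rintro ⟨x, y⟩
    have h1 : ((x.out * i y.out : V) : V ⧸ S).out⁻¹ * (x.out * i y.out) ∈ S := by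
      rw [← QuotientGroup.eq, QuotientGroup.out_eq']
    have h2 := hη (((x.out * i y.out : V) : V ⧸ S).out⁻¹ * g *
      ((x.out * i y.out : V) : V ⧸ S).out) _ h1
    rw [← h2]
    congr 1
    group

end

section
variable {K : Type} [Field K] [NumberField K]

/-- transitivity of induction -/
theorem induced_trans {F₀ F F' : IntermediateField K (AlgebraicClosure K)} (h1 : F₀ ≤ F)
    (h2 : F ≤ F') [FiniteDimensional K F] [FiniteDimensional K F'] (χ : F'.fixingSubgroup → ℂ)
    (hχ : ∀ x g : F'.fixingSubgroup, χ (x⁻¹ * g * x) = χ g) :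
    induced F₀ F (induced F F' χ) = induced F₀ F' χ := by
  funext g
  let R : Subgroup F₀.fixingSubgroup := F.fixingSubgroup.subgroupOf F₀.fixingSubgroup
  let S : Subgroup F₀.fixingSubgroup := F'.fixingSubgroup.subgroupOf F₀.fixingSubgroup
  let T : Subgroup F.fixingSubgroup := F'.fixingSubgroup.subgroupOf F.fixingSubgroup
  have hfR : Finite (F₀.fixingSubgroup ⧸ R) := nn_finite F₀ F
  have hfS : Finite (F₀.fixingSubgroup ⧸ S) := nn_finite F₀ F'
  have hfT : Finite (F.fixingSubgroup ⧸ T) := nn_finite F F'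
  have : Fintype (F₀.fixingSubgroup ⧸ R) := Fintype.ofFinite _
  have : Fintype (F.fixingSubgroup ⧸ T) := Fintype.ofFinite _
  let η : F₀.fixingSubgroup → ℂ := fun v =>
    if h : (v : Gal(AlgebraicClosure K/K)) ∈ F'.fixingSubgroup then χ ⟨_, h⟩ else 0
  have hη : ∀ v s, s ∈ S → η (s⁻¹ * v * s) = η v := by
    intro v s hs
    have hs' : (s : Gal(AlgebraicClosure K/K)) ∈ F'.fixingSubgroup := hs
    by_cases hv : (v : Gal(AlgebraicClosure K/K)) ∈ F'.fixingSubgroup
    · have hv' : ((s⁻¹ * v * s : F₀.fixingSubgroup) : Gal(AlgebraicClosure K/K)) ∈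
          F'.fixingSubgroup :=
        F'.fixingSubgroup.mul_mem (F'.fixingSubgroup.mul_mem (F'.fixingSubgroup.inv_mem hs') hv) hs'
      change (if h : _ then _ else _) = (if h : _ then _ else _)
      rw [dif_pos hv, dif_pos hv']
      exact hχ ⟨_, hs'⟩ ⟨_, hv⟩
    · have hv' : ((s⁻¹ * v * s : F₀.fixingSubgroup) : Gal(AlgebraicClosure K/K)) ∉
          F'.fixingSubgroup := by
        intro h
        apply hv
        have h3 := F'.fixingSubgroup.mul_mem (F'.fixingSubgroup.mul_mem hs' h)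
          (F'.fixingSubgroup.inv_mem hs')
        have h4 : (s : Gal(AlgebraicClosure K/K)) *
            ((s⁻¹ * v * s : F₀.fixingSubgroup) : Gal(AlgebraicClosure K/K)) *
            (s : Gal(AlgebraicClosure K/K))⁻¹ = (v : Gal(AlgebraicClosure K/K)) := by
          push_cast
          group
        rwa [h4] at h3
      change (if h : _ then _ else _) = (if h : _ then _ else _)
      rw [dif_neg hv, dif_neg hv']
  have key := coset_trans (inc h1) R S T (fun v => ?_) (fun w => Iff.rfl) (fun v hv => ?_) η hη g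
  · have e2 : ∑ᶠ z : F₀.fixingSubgroup ⧸ S, η (z.out⁻¹ * g * z.out) = induced F₀ F' χ g := rfl
    rw [← e2, ← key]
    unfold induced
    rw [finsum_eq_sum_of_fintype, finsum_eq_sum_of_fintype]
    refine Finset.sum_congr rfl fun x _ => ?_
    rw [finsum_eq_sum_of_fintype]
    by_cases hx : ((x.out⁻¹ * g * x.out : F₀.fixingSubgroup) : Gal(AlgebraicClosure K/K)) ∈
        F.fixingSubgroup
    · rw [dif_pos hx, finsum_eq_sum_of_fintype]
      refine Finset.sum_congr rfl fun y _ => ?_
      have h5 : ((y.out⁻¹ * ⟨_, hx⟩ * y.out : F.fixingSubgroup) : Gal(AlgebraicClosure K/K)) =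
          (((x.out * inc h1 y.out)⁻¹ * g * (x.out * inc h1 y.out) : F₀.fixingSubgroup) :
            Gal(AlgebraicClosure K/K)) := by
        change ((y.out : Gal(AlgebraicClosure K/K)))⁻¹ * ((x.out : Gal(AlgebraicClosure K/K))⁻¹ *
          g * (x.out : Gal(AlgebraicClosure K/K))) * (y.out : Gal(AlgebraicClosure K/K)) =
          ((x.out : Gal(AlgebraicClosure K/K)) * (y.out : Gal(AlgebraicClosure K/K)))⁻¹ * g *
          ((x.out : Gal(AlgebraicClosure K/K)) * (y.out : Gal(AlgebraicClosure K/K)))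
        group
      change _ = (if h : _ then _ else _)
      by_cases h6 : ((y.out⁻¹ * ⟨_, hx⟩ * y.out : F.fixingSubgroup) :
          Gal(AlgebraicClosure K/K)) ∈ F'.fixingSubgroup
      · have h7 := h6
        rw [h5] at h7
        rw [dif_pos h6, dif_pos h7]
        congr 1
      · have h7 := h6
        rw [h5] at h7
        rw [dif_neg h6, dif_neg h7]
    · rw [dif_neg hx]
      symm
      apply Finset.sum_eq_zero
      intro y _
      change (if h : _ then _ else _) = _
      rw [dif_neg]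
      intro h
      apply hx
      have h3 : (((x.out * inc h1 y.out)⁻¹ * g * (x.out * inc h1 y.out) : F₀.fixingSubgroup) :
            Gal(AlgebraicClosure K/K)) ∈ F.fixingSubgroup :=
        IntermediateField.fixingSubgroup_antitone h2 h
      have h4 := F.fixingSubgroup.mul_mem (F.fixingSubgroup.mul_mem y.out.2 h3)
        (F.fixingSubgroup.inv_mem y.out.2)
      have h5 : (y.out : Gal(AlgebraicClosure K/K)) *
          (((x.out * inc h1 y.out)⁻¹ * g * (x.out * inc h1 y.out) : F₀.fixingSubgroup) :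
            Gal(AlgebraicClosure K/K)) * (y.out : Gal(AlgebraicClosure K/K))⁻¹ =
          ((x.out⁻¹ * g * x.out : F₀.fixingSubgroup) : Gal(AlgebraicClosure K/K)) := by
        change (y.out : Gal(AlgebraicClosure K/K)) *
          (((x.out : Gal(AlgebraicClosure K/K)) * (y.out : Gal(AlgebraicClosure K/K)))⁻¹ * g *
          ((x.out : Gal(AlgebraicClosure K/K)) * (y.out : Gal(AlgebraicClosure K/K)))) *
          (y.out : Gal(AlgebraicClosure K/K))⁻¹ = (x.out : Gal(AlgebraicClosure K/K))⁻¹ * g *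
          (x.out : Gal(AlgebraicClosure K/K))
        group
      rwa [h5] at h4
  · rw [Subgroup.mem_subgroupOf]
    constructor
    · intro h
      exact ⟨⟨_, h⟩, rfl⟩
    · rintro ⟨w, rfl⟩
      exact w.2
  · exact IntermediateField.fixingSubgroup_antitone h2 hv

theorem induced_add {F₀ F : IntermediateField K (AlgebraicClosure K)} [FiniteDimensional K F]
    (f f' : F.fixingSubgroup → ℂ) :
    induced F₀ F (f + f') = induced F₀ F f + induced F₀ F f' := by
  have hf : Finite (F₀.fixingSubgroup ⧸ F.fixingSubgroup.subgroupOf F₀.fixingSubgroup) :=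
    nn_finite F₀ F
  have : Fintype (F₀.fixingSubgroup ⧸ F.fixingSubgroup.subgroupOf F₀.fixingSubgroup) :=
    Fintype.ofFinite _
  funext g
  rw [Pi.add_apply]
  unfold induced
  rw [finsum_eq_sum_of_fintype, finsum_eq_sum_of_fintype, finsum_eq_sum_of_fintype,
    ← Finset.sum_add_distrib]
  refine Finset.sum_congr rfl fun x _ => ?_
  split_ifs
  · rfl
  · rw [add_zero]

theorem induced_zero {F₀ F : IntermediateField K (AlgebraicClosure K)} :
    induced F₀ F (0 : F.fixingSubgroup → ℂ) = 0 := by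
  funext g
  unfold induced
  rw [Pi.zero_apply]
  apply finsum_eq_zero_of_forall_eq_zero
  intro x
  split_ifs <;> rfl

theorem induced_sum {F₀ F : IntermediateField K (AlgebraicClosure K)} [FiniteDimensional K F]
    {n : ℕ} (f : Fin n → F.fixingSubgroup → ℂ) (s : Finset (Fin n)) :
    induced F₀ F (∑ i ∈ s, f i) = ∑ i ∈ s, induced F₀ F (f i) := by
  induction s using Finset.induction_on with
  | empty => rw [Finset.sum_empty, Finset.sum_empty, induced_zero]
  | insert i s hi ih => rw [Finset.sum_insert hi, Finset.sum_insert hi, induced_add, ih]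

/-- induction of a linear character through a pure extension -/
theorem gen_step {F₀ F : IntermediateField K (AlgebraicClosure K)} (h0 : F₀ ≤ F)
    [hF : FiniteDimensional K F] {l : ℕ} (hl : Fact l.Prime) {ζ b : AlgebraicClosure K}
    (hd : PureData F l ζ b) (ψ : F.fixingSubgroup →* ℂˣ) (hψ : Smooth F ψ)
    (C : AddSubgroup (F₀.fixingSubgroup → ℂ))
    (h1 : ∀ θ : (ad F ζ).fixingSubgroup →* ℂˣ, Smooth (ad F ζ) θ →
      induced F₀ (ad F ζ) (fun g => ((θ g : ℂˣ) : ℂ)) ∈ C)
    (h2 : induced F₀ (ad F b) (fun g => ((ψ (inc (le_sup_left : F ≤ ad F b) g) : ℂˣ) : ℂ)) ∈ C) :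
    induced F₀ F (fun g => ((ψ g : ℂˣ) : ℂ)) ∈ C := by
  have hψc := isCharacter_conj (lin_isCharacter F ψ hψ)
  obtain ⟨n, θ, hθ, hrel⟩ := char_relation hd hF (fun g => ((ψ g : ℂˣ) : ℂ)) hψc
  have h3 := congrArg (induced F₀ F) hrel
  rw [induced_add, induced_sum] at h3
  have hsm : ∀ i, Smooth (ad F ζ) (ψ.comp (inc (le_sup_left : F ≤ ad F ζ)) * θ i) := by
    intro i
    obtain ⟨E, hE, hs⟩ := hψ
    obtain ⟨E', hE', hs'⟩ := hθ i
    refine ⟨E ⊔ E', inferInstance, fun g hg => ?_⟩
    rw [MonoidHom.mul_apply, MonoidHom.comp_apply,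
      hs (inc _ g) (IntermediateField.fixingSubgroup_antitone le_sup_left hg),
      hs' g (IntermediateField.fixingSubgroup_antitone le_sup_right hg), one_mul]
  have h4 : ∀ i, induced F₀ F (induced F (ad F ζ)
      (fun g => ((ψ (inc (le_sup_left : F ≤ ad F ζ) g) : ℂˣ) : ℂ) * ((θ i g : ℂˣ) : ℂ))) ∈ C := by
    intro i
    have e := induced_trans h0 (le_sup_left : F ≤ ad F ζ)
      (fun g => (((ψ.comp (inc (le_sup_left : F ≤ ad F ζ)) * θ i) g : ℂˣ) : ℂ))
      (isCharacter_conj (lin_isCharacter (ad F ζ) _ (hsm i)))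
    have e2 := h1 _ (hsm i)
    rw [← e] at e2
    exact e2
  have h5 : induced F₀ F (induced F (ad F b)
      (fun g => ((ψ (inc (le_sup_left : F ≤ ad F b) g) : ℂˣ) : ℂ))) ∈ C := by
    rw [induced_trans h0 le_sup_left]
    · exact h2
    · intro x g
      exact hψc (inc (le_sup_left : F ≤ ad F b) x) (inc (le_sup_left : F ≤ ad F b) g)
  have h6 : induced F₀ F (fun g => ((ψ g : ℂˣ) : ℂ)) = induced F₀ F (induced F (ad F b)
      (fun g => ((ψ (inc (le_sup_left : F ≤ ad F b) g) : ℂˣ) : ℂ))) -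
      ∑ i, induced F₀ F (induced F (ad F ζ)
      (fun g => ((ψ (inc (le_sup_left : F ≤ ad F ζ) g) : ℂˣ) : ℂ) * ((θ i g : ℂˣ) : ℂ))) := by
    rw [eq_sub_iff_add_eq]
    exact h3
  rw [h6]
  exact C.sub_mem h5 (C.sum_mem fun i _ => h4 i)

theorem empty_mono {F F' : IntermediateField K (AlgebraicClosure K)} (hle : F ≤ F')
    (h : IsEmpty (F →+* ℝ)) : IsEmpty (F' →+* ℝ) :=
  ⟨fun φ => h.false (φ.comp (IntermediateField.inclusion hle).toRingHom)⟩

theorem empty_zeta {F : IntermediateField K (AlgebraicClosure K)} {l : ℕ} (hl : l.Prime)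
    (h2 : 2 < l) {ζ : AlgebraicClosure K} (hζ : IsPrimitiveRoot ζ l) :
    IsEmpty (ad F ζ →+* ℝ) := by
  refine ⟨fun φ => ?_⟩
  have hmem : ζ ∈ ad F ζ :=
    (le_sup_right : IntermediateField.adjoin K {ζ} ≤ ad F ζ)
      (IntermediateField.mem_adjoin_simple_self K ζ)
  have hζ' : IsPrimitiveRoot (⟨ζ, hmem⟩ : ad F ζ) l :=
    IsPrimitiveRoot.of_map_of_injective (f := algebraMap (ad F ζ) (AlgebraicClosure K)) hζ
      (algebraMap (ad F ζ) (AlgebraicClosure K)).injective
  refine not_real_zeta hl h2 _ hζ' (Complex.ofRealHom.comp φ) (fun x => ?_)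
  exact Complex.ofReal_im _

end

end Pool.Agent.Q213.ST
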