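import Pool.Agent.Q213.ST.Ext

set_option autoImplicit false
set_option linter.unusedSectionVars false

/-!
The reductions to large base fields.
-/

namespace Pool.Agent.Q213.ST

open Pool.Agent.Q246.BI
open scoped Classical

section
variable {K : Type} [Field K] [NumberField K] {A : Type} [AddCommGroup A]

/-- Restriction of linear characters keeps the two types. -/
theorem two_power_res {F F' : IntermediateField K (AlgebraicClosure K)} (hle : F ≤ F')
    (ψ : F.fixingSubgroup →* ℂˣ)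
    (h : IsEmpty (F →+* ℝ) ∨ ∃ k : ℕ, ∀ g, ψ g ^ 2 ^ k = 1) :
    IsEmpty (F' →+* ℝ) ∨ ∃ k : ℕ, ∀ g, (ψ.comp (inc hle)) g ^ 2 ^ k = 1 := by
  rcases h with h | ⟨k, h⟩
  · exact Or.inl (empty_mono hle h)
  · exact Or.inr ⟨k, fun g => h _⟩

theorem smooth_res {F F' : IntermediateField K (AlgebraicClosure K)} (hle : F ≤ F')
    (ψ : F.fixingSubgroup →* ℂˣ) (h : Smooth F ψ) : Smooth F' (ψ.comp (inc hle)) := by
  obtain ⟨E, hE, hs⟩ := h
  exact ⟨E, hE, fun g hg => hs (inc hle g) hg⟩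

/-- exact form -/
theorem big_zero (N : ℕ) (D : ∀ F : IntermediateField K (AlgebraicClosure K),
      (F.fixingSubgroup → ℂ) → A)
    (hadd : ∀ F : IntermediateField K (AlgebraicClosure K), FiniteDimensional K F →
      ∀ χ χ' : F.fixingSubgroup → ℂ, IsCharacter F χ → IsCharacter F χ' →
        D F (χ + χ') = D F χ + D F χ')
    (hind : ∀ F F' : IntermediateField K (AlgebraicClosure K), F ≤ F' → FiniteDimensional K F' →
      ∀ χ : F'.fixingSubgroup → ℂ, IsCharacter F' χ → D F (induced F F' χ) = D F' χ)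
    (hD : ∀ F : IntermediateField K (AlgebraicClosure K), FiniteDimensional K F → Big N F →
      ∀ ψ : F.fixingSubgroup →* ℂˣ, Smooth F ψ →
        (IsEmpty (F →+* ℝ) ∨ ∃ k : ℕ, ∀ g, ψ g ^ 2 ^ k = 1) →
        D F (fun g => ((ψ g : ℂˣ) : ℂ)) = 0)
    (F₀ : IntermediateField K (AlgebraicClosure K)) (hF₀ : FiniteDimensional K F₀)
    (χ : F₀.fixingSubgroup → ℂ) (hχ : IsCharacter F₀ χ) : D F₀ χ = 0 := by
  refine defect_zero D hadd hind (fun F hF ψ hψ h => ?_) F₀ hF₀ χ hχ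
  obtain ⟨l, ζ, b, hl, h2, hd, hb1, hb2⟩ := exists_pure F N
  refine descent_lin D hadd hind ⟨hl⟩ hF hd ψ hψ (fun θ hθ => ?_) ?_
  · exact hD _ inferInstance hb1 θ hθ (Or.inl (empty_zeta hl h2 hd.prim))
  · exact hD _ inferInstance hb2 (ψ.comp (inc le_sup_left)) (smooth_res _ ψ hψ)
      (two_power_res _ ψ h)

/-- form up to torsion -/
theorem big_torsion (N : ℕ) (D : ∀ F : IntermediateField K (AlgebraicClosure K),
      (F.fixingSubgroup → ℂ) → A)
    (hadd : ∀ F : IntermediateField K (AlgebraicClosure K), FiniteDimensional K F →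
      ∀ χ χ' : F.fixingSubgroup → ℂ, IsCharacter F χ → IsCharacter F χ' →
        D F (χ + χ') = D F χ + D F χ')
    (hind : ∀ F F' : IntermediateField K (AlgebraicClosure K), F ≤ F' → FiniteDimensional K F' →
      ∀ χ : F'.fixingSubgroup → ℂ, IsCharacter F' χ → D F (induced F F' χ) = D F' χ)
    (h1 : ∀ F : IntermediateField K (AlgebraicClosure K), FiniteDimensional K F →
      ∃ m : ℕ, 0 < m ∧ m • D F (fun _ => 1) = 0) {M : ℕ} (hM : 0 < M)
    (hD : ∀ F : IntermediateField K (AlgebraicClosure K), FiniteDimensional K F → Big N F →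
      IsEmpty (F →+* ℝ) → M ∣ Module.finrank K F → ∀ ψ : F.fixingSubgroup →* ℂˣ, Smooth F ψ →
        ∃ m : ℕ, 0 < m ∧ m • D F (fun g => ((ψ g : ℂˣ) : ℂ)) = 0)
    (F₀ : IntermediateField K (AlgebraicClosure K)) (hF₀ : FiniteDimensional K F₀)
    (χ : F₀.fixingSubgroup → ℂ) (hχ : IsCharacter F₀ χ) : ∃ m : ℕ, 0 < m ∧ m • D F₀ χ = 0 := by
  refine defect_torsion D hadd hind h1 hM (fun F hF he hMF ψ hψ => ?_) F₀ hF₀ χ hχ
  obtain ⟨l, ζ, b, hl, h2, hd, hb1, hb2⟩ := exists_pure F N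
  let T : AddSubgroup A := AddCommGroup.torsion A
  have hT : ∀ a : A, (∃ m : ℕ, 0 < m ∧ m • a = 0) ↔ (QuotientAddGroup.mk a : A ⧸ T) = 0 := by
    intro a
    rw [QuotientAddGroup.eq_zero_iff]
    change _ ↔ IsOfFinAddOrder a
    rw [isOfFinAddOrder_iff_nsmul_eq_zero]
  rw [hT]
  refine descent_lin (A := A ⧸ T)
    (fun F χ => (QuotientAddGroup.mk (D F χ) : A ⧸ T)) ?_ ?_ ⟨hl⟩ hF hd ψ hψ (fun θ hθ => ?_) ?_
  · intro F hF χ χ' hχ hχ'
    change (QuotientAddGroup.mk (D F (χ + χ')) : A ⧸ T) = _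
    rw [hadd F hF χ χ' hχ hχ']
    rfl
  · intro F F' hle hF' χ hχ
    change (QuotientAddGroup.mk (D F (induced F F' χ)) : A ⧸ T) = _
    rw [hind F F' hle hF' χ hχ]
  · rw [← hT]
    exact hD _ inferInstance hb1 (empty_mono le_sup_left he)
      (hMF.trans (IntermediateField.finrank_dvd_of_le_right le_sup_left)) θ hθ
  · rw [← hT]
    exact hD _ inferInstance hb2 (empty_mono le_sup_left he)
      (hMF.trans (IntermediateField.finrank_dvd_of_le_right le_sup_left))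
      (ψ.comp (inc le_sup_left)) (smooth_res _ ψ hψ)

/-- integral induction theorem -/
theorem big_induction (N : ℕ) (F₀ : IntermediateField K (AlgebraicClosure K))
    [FiniteDimensional K F₀] {χ : F₀.fixingSubgroup → ℂ} (hχ : IsCharacter F₀ χ) :
    χ ∈ AddSubgroup.closure {f | ∃ (F : IntermediateField K (AlgebraicClosure K))
      (ψ : F.fixingSubgroup →* ℂˣ), F₀ ≤ F ∧ FiniteDimensional K F ∧ Big N F ∧ Smooth F ψ ∧
      (IsEmpty (F →+* ℝ) ∨ ∃ k : ℕ, ∀ g, ψ g ^ 2 ^ k = 1) ∧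
      f = induced F₀ F (fun g => ((ψ g : ℂˣ) : ℂ))} := by
  have h1 := integral_induction F₀ hχ
  refine (AddSubgroup.closure_le _).2 ?_ h1
  rintro f ⟨F, ψ, h0, hF, hψ, h, rfl⟩
  obtain ⟨l, ζ, b, hl, h2, hd, hb1, hb2⟩ := exists_pure F N
  refine gen_step h0 ⟨hl⟩ hd ψ hψ _ (fun θ hθ => ?_) ?_
  · exact AddSubgroup.subset_closure ⟨_, θ, h0.trans le_sup_left, inferInstance, hb1, hθ,
      Or.inl (empty_zeta hl h2 hd.prim), rfl⟩
  · exact AddSubgroup.subset_closure ⟨_, ψ.comp (inc le_sup_left), h0.trans le_sup_left,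
      inferInstance, hb2, smooth_res _ ψ hψ, two_power_res _ ψ h, rfl⟩

/-- rational induction theorem -/
theorem big_rational (N : ℕ) {M : ℕ} (hM : 0 < M)
    (F₀ : IntermediateField K (AlgebraicClosure K))
    [FiniteDimensional K F₀] {χ : F₀.fixingSubgroup → ℂ} (hχ : IsCharacter F₀ χ) :
    ∃ m : ℕ, 0 < m ∧ m • χ ∈ AddSubgroup.closure {f | ∃ (F : IntermediateField K
      (AlgebraicClosure K)) (ψ : F.fixingSubgroup →* ℂˣ), F₀ ≤ F ∧ FiniteDimensional K F ∧
      Smooth F ψ ∧ ((Big N F ∧ IsEmpty (F →+* ℝ) ∧ M ∣ Module.finrank K F) ∨ ψ = 1) ∧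
      f = induced F₀ F (fun g => ((ψ g : ℂˣ) : ℂ))} := by
  obtain ⟨m, hm, h1⟩ := rational_induction F₀ hχ hM
  refine ⟨m, hm, (AddSubgroup.closure_le _).2 ?_ h1⟩
  rintro f ⟨F, ψ, h0, hF, hψ, ⟨he, hMF⟩ | h, rfl⟩
  · obtain ⟨l, ζ, b, hl, h2, hd, hb1, hb2⟩ := exists_pure F N
    refine gen_step h0 ⟨hl⟩ hd ψ hψ _ (fun θ hθ => ?_) ?_
    · exact AddSubgroup.subset_closure ⟨_, θ, h0.trans le_sup_left, inferInstance, hθ,
        Or.inl ⟨hb1, empty_mono le_sup_left he,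
          hMF.trans (IntermediateField.finrank_dvd_of_le_right le_sup_left)⟩, rfl⟩
    · exact AddSubgroup.subset_closure ⟨_, ψ.comp (inc le_sup_left), h0.trans le_sup_left,
        inferInstance, smooth_res _ ψ hψ, Or.inl ⟨hb2, empty_mono le_sup_left he,
          hMF.trans (IntermediateField.finrank_dvd_of_le_right le_sup_left)⟩, rfl⟩
  · exact AddSubgroup.subset_closure ⟨F, ψ, h0, hF, hψ, Or.inr h, rfl⟩

end

end Pool.Agent.Q213.ST
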