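import Pool.Agent.Q246.BI.Main

set_option autoImplicit false
set_option linter.unusedSectionVars false

/-!
Induced characters are characters; restriction and twists.
-/

namespace Pool.Agent.Q213.ST

open Pool.Agent.Q246.BI
open scoped Classical

section block
variable {V : Type} [Group V] (U : Subgroup V) {n : ℕ} (τ : U →* Matrix (Fin n) (Fin n) ℂ)

/-- extension by zero -/
noncomputable def ex (g : V) : Matrix (Fin n) (Fin n) ℂ := if h : g ∈ U then τ ⟨g, h⟩ else 0

theorem ex_mem {g : V} (h : g ∈ U) : ex U τ g = τ ⟨g, h⟩ := dif_pos h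
theorem ex_not {g : V} (h : g ∉ U) : ex U τ g = 0 := dif_neg h

theorem ex_mul {a b : V} (ha : a ∈ U) : ex U τ (a * b) = ex U τ a * ex U τ b := by
  by_cases hb : b ∈ U
  · rw [ex_mem U τ (U.mul_mem ha hb), ex_mem U τ ha, ex_mem U τ hb, ← map_mul]
    rfl
  · have hab : a * b ∉ U := fun h => hb ((Subgroup.mul_mem_cancel_left U ha).1 h)
    rw [ex_not U τ hab, ex_not U τ hb, mul_zero]

/-- the induced representation -/
noncomputable def bl [Fintype (V ⧸ U)] : V →* Matrix ((V ⧸ U) × Fin n) ((V ⧸ U) × Fin n) ℂ where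
  toFun := fun g => Matrix.of fun s t => ex U τ (s.1.out⁻¹ * g * t.1.out) s.2 t.2
  map_one' := by
    ext ⟨x, i⟩ ⟨y, j⟩
    rw [Matrix.of_apply, mul_one, Matrix.one_apply]
    simp only
    by_cases hxy : x = y
    · subst hxy
      rw [inv_mul_cancel, ex_mem U τ U.one_mem]
      have h1 : τ ⟨1, U.one_mem⟩ = 1 := map_one τ
      rw [h1, Matrix.one_apply]
      by_cases hij : i = j
      · subst hij; simp
      · rw [if_neg hij, if_neg]
        intro h
        exact hij (congrArg Prod.snd h)
    · rw [if_neg (fun h => hxy (congrArg Prod.fst h)), ex_not U τ]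
      · rfl
      · intro h
        apply hxy
        rw [← QuotientGroup.eq, QuotientGroup.out_eq', QuotientGroup.out_eq'] at h
        exact h
  map_mul' := fun g g' => by
    ext ⟨x, i⟩ ⟨z, k⟩
    rw [Matrix.of_apply, Matrix.mul_apply, Fintype.sum_prod_type]
    simp only [Matrix.of_apply]
    let y₀ : V ⧸ U := ((g' * z.out : V) : V ⧸ U)
    have hy₀ : y₀.out⁻¹ * g' * z.out ∈ U := by
      rw [mul_assoc, ← QuotientGroup.eq, QuotientGroup.out_eq']
    have hy : ∀ y : V ⧸ U, ∑ j, ex U τ (x.out⁻¹ * g * y.out) i j * ex U τ (y.out⁻¹ * g' * z.out) j k =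
        (ex U τ (x.out⁻¹ * g * y.out) * ex U τ (y.out⁻¹ * g' * z.out)) i k := by
      intro y
      rw [Matrix.mul_apply]
    simp only [hy]
    rw [Finset.sum_eq_single y₀]
    · by_cases hx : x.out⁻¹ * g * y₀.out ∈ U
      · rw [← ex_mul U τ hx]
        have h5 : x.out⁻¹ * (g * g') * z.out =
            x.out⁻¹ * g * y₀.out * (y₀.out⁻¹ * g' * z.out) := by group
        rw [h5]
      · have hx' : x.out⁻¹ * (g * g') * z.out ∉ U := by
          intro h
          apply hx
          have h2 := U.mul_mem h (U.inv_mem hy₀)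
          have h3 : x.out⁻¹ * (g * g') * z.out * (y₀.out⁻¹ * g' * z.out)⁻¹ =
              x.out⁻¹ * g * y₀.out := by group
          rwa [h3] at h2
        rw [ex_not U τ hx', ex_not U τ hx, zero_mul]
    · intro y _ hy
      have h2 : y.out⁻¹ * g' * z.out ∉ U := by
        intro h
        apply hy
        rw [mul_assoc, ← QuotientGroup.eq, QuotientGroup.out_eq'] at h
        exact h
      rw [ex_not U τ h2, mul_zero]
      rfl
    · intro h
      exact absurd (Finset.mem_univ _) h

theorem bl_trace [Fintype (V ⧸ U)] (g : V) :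
    (bl U τ g).trace = ∑ x : V ⧸ U, (ex U τ (x.out⁻¹ * g * x.out)).trace := by
  unfold Matrix.trace
  rw [Fintype.sum_prod_type]
  rfl

theorem bl_one [Fintype (V ⧸ U)] (g : V) (hg : ∀ x : V, x⁻¹ * g * x ∈ U)
    (h1 : ∀ x : V, ex U τ (x⁻¹ * g * x) = 1) : bl U τ g = 1 := by
  ext ⟨x, i⟩ ⟨y, j⟩
  change ex U τ (x.out⁻¹ * g * y.out) i j = _
  rw [Matrix.one_apply]
  by_cases hxy : x = y
  · subst hxy
    rw [h1, Matrix.one_apply]
    by_cases hij : i = j
    · subst hij; simp
    · rw [if_neg hij, if_neg]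
      intro h
      exact hij (congrArg Prod.snd h)
  · rw [if_neg (fun h => hxy (congrArg Prod.fst h)), ex_not U τ]
    · rfl
    · intro h
      apply hxy
      have h2 : x.out⁻¹ * y.out ∈ U := by
        have h3 := U.mul_mem h (U.inv_mem (hg y.out))
        have h4 : x.out⁻¹ * g * y.out * (y.out⁻¹ * g * y.out)⁻¹ = x.out⁻¹ * y.out := by group
        rwa [h4] at h3
      rw [← QuotientGroup.eq, QuotientGroup.out_eq', QuotientGroup.out_eq'] at h2
      exact h2

end block

section
variable {K : Type} [Field K] [NumberField K]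

theorem antitone {F F' : IntermediateField K (AlgebraicClosure K)} (hle : F ≤ F')
    (g : F'.fixingSubgroup) : (g : Gal(AlgebraicClosure K/K)) ∈ F.fixingSubgroup :=
  IntermediateField.fixingSubgroup_antitone hle g.2

/-- restriction to an extension field -/
noncomputable def inc {F F' : IntermediateField K (AlgebraicClosure K)} (hle : F ≤ F') :
    F'.fixingSubgroup →* F.fixingSubgroup :=
  Subgroup.inclusion (IntermediateField.fixingSubgroup_antitone hle)

/-- induced characters are characters -/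
theorem isCharacter_induced {F F' : IntermediateField K (AlgebraicClosure K)} (hle : F ≤ F')
    [FiniteDimensional K F'] {χ : F'.fixingSubgroup → ℂ} (h : IsCharacter F' χ) :
    IsCharacter F (induced F F' χ) := by
  obtain ⟨n, τ, ⟨E, hE, hs⟩, hτ⟩ := h
  let U : Subgroup F.fixingSubgroup := F'.fixingSubgroup.subgroupOf F.fixingSubgroup
  have hfin : Finite (F.fixingSubgroup ⧸ U) := nn_finite F F'
  have : Fintype (F.fixingSubgroup ⧸ U) := Fintype.ofFinite _
  let σ : U →* Matrix (Fin n) (Fin n) ℂ :=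
    (Units.coeHom _).comp (τ.comp
      { toFun := fun u => ⟨((u : F.fixingSubgroup) : Gal(AlgebraicClosure K/K)), u.2⟩
        map_one' := rfl
        map_mul' := fun _ _ => rfl })
  -- the normal closure
  let N : IntermediateField K (AlgebraicClosure K) :=
    IntermediateField.normalClosure K (E ⊔ F' : IntermediateField K (AlgebraicClosure K))
      (AlgebraicClosure K)
  have hfdEF : FiniteDimensional K (E ⊔ F' : IntermediateField K (AlgebraicClosure K)) :=
    inferInstance
  have hN1 : (E ⊔ F' : IntermediateField K (AlgebraicClosure K)) ≤ N :=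
    IntermediateField.le_normalClosure _
  have hNn : Normal K N := normalClosure.normal K _ _
  have hNf : FiniteDimensional K N := normalClosure.is_finiteDimensional K _ _
  have hgal : IsGalois K N := {}
  have hNnor : N.fixingSubgroup.Normal := inferInstance
  have hmem : ∀ (g : F.fixingSubgroup), (g : Gal(AlgebraicClosure K/K)) ∈ N.fixingSubgroup →
      ∀ x : F.fixingSubgroup, ∃ hx : x⁻¹ * g * x ∈ U, σ ⟨_, hx⟩ = 1 := by
    intro g hg x
    have h1 : ((x⁻¹ * g * x : F.fixingSubgroup) : Gal(AlgebraicClosure K/K)) ∈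
        N.fixingSubgroup := by
      have h2 := hNnor.conj_mem _ hg ((x : Gal(AlgebraicClosure K/K))⁻¹)
      rw [inv_inv] at h2
      exact h2
    have hF' : ((x⁻¹ * g * x : F.fixingSubgroup) : Gal(AlgebraicClosure K/K)) ∈
        F'.fixingSubgroup :=
      IntermediateField.fixingSubgroup_antitone (le_trans le_sup_right hN1) h1
    have hE' : ((x⁻¹ * g * x : F.fixingSubgroup) : Gal(AlgebraicClosure K/K)) ∈
        E.fixingSubgroup :=
      IntermediateField.fixingSubgroup_antitone (le_trans le_sup_left hN1) h1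
    refine ⟨hF', ?_⟩
    change ((τ ⟨_, hF'⟩ : GL (Fin n) ℂ) : Matrix (Fin n) (Fin n) ℂ) = 1
    rw [hs ⟨_, hF'⟩ hE']
    rfl
  let e := Fintype.equivFin ((F.fixingSubgroup ⧸ U) × Fin n)
  let ρ : F.fixingSubgroup →* Matrix (Fin (Fintype.card ((F.fixingSubgroup ⧸ U) × Fin n)))
      (Fin (Fintype.card ((F.fixingSubgroup ⧸ U) × Fin n))) ℂ :=
    (MonoidHomClass.toMonoidHom (Matrix.reindexAlgEquiv ℂ ℂ e)).comp (bl U σ)
  refine ⟨_, ρ.toHomUnits, ⟨N, hNf, fun g hg => ?_⟩, fun g => ?_⟩
  · apply Units.ext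
    change (Matrix.reindexAlgEquiv ℂ ℂ e) (bl U σ g) = 1
    have h1 : bl U σ g = 1 := by
      apply bl_one
      · intro x
        exact (hmem g hg x).1
      · intro x
        obtain ⟨hx, h2⟩ := hmem g hg x
        rw [ex_mem U σ hx, h2]
    rw [h1, map_one]
  · change induced F F' χ g = ((Matrix.reindexAlgEquiv ℂ ℂ e) (bl U σ g)).trace
    have h1 : ((Matrix.reindexAlgEquiv ℂ ℂ e) (bl U σ g)).trace = (bl U σ g).trace := by
      unfold Matrix.trace
      exact (Fintype.sum_equiv e _ _ (fun x => by simp)).symm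
    rw [h1, bl_trace]
    unfold induced
    rw [finsum_eq_sum_of_fintype]
    refine Finset.sum_congr rfl fun x _ => ?_
    by_cases hx : ((x.out⁻¹ * g * x.out : F.fixingSubgroup) : Gal(AlgebraicClosure K/K)) ∈
        F'.fixingSubgroup
    · rw [dif_pos hx, ex_mem U σ hx, hτ]
      rfl
    · rw [dif_neg hx, ex_not U σ hx, Matrix.trace_zero]

/-- restriction and twist -/
theorem isCharacter_res {F F' : IntermediateField K (AlgebraicClosure K)} (hle : F ≤ F')
    {χ : F.fixingSubgroup → ℂ} (h : IsCharacter F χ) (θ : F'.fixingSubgroup →* ℂˣ)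
    (hθ : Smooth F' θ) :
    IsCharacter F' (fun g => χ (inc hle g) * ((θ g : ℂˣ) : ℂ)) := by
  obtain ⟨n, τ, ⟨E, hE, hs⟩, hτ⟩ := h
  obtain ⟨E', hE', hs'⟩ := hθ
  let sc : ℂ →* Matrix (Fin n) (Fin n) ℂ := (Matrix.scalar (Fin n)).toMonoidHom
  let ρ : F'.fixingSubgroup →* Matrix (Fin n) (Fin n) ℂ :=
    { toFun := fun g => sc ((θ g : ℂˣ) : ℂ) * (τ (inc hle g) : Matrix (Fin n) (Fin n) ℂ)
      map_one' := by
        rw [map_one, map_one, map_one, Units.val_one, map_one, Units.val_one, mul_one]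
      map_mul' := fun a b => by
        rw [map_mul, map_mul, map_mul, Units.val_mul, map_mul, Units.val_mul]
        have hcom : sc ((θ b : ℂˣ) : ℂ) * (τ (inc hle a) : Matrix (Fin n) (Fin n) ℂ) =
            (τ (inc hle a) : Matrix (Fin n) (Fin n) ℂ) * sc ((θ b : ℂˣ) : ℂ) :=
          Matrix.scalar_commute _ (fun r => Commute.all _ _) _
        rw [mul_assoc, mul_assoc, ← mul_assoc (sc ((θ b : ℂˣ) : ℂ)), hcom]
        simp only [mul_assoc] }
  refine ⟨n, ρ.toHomUnits, ⟨E ⊔ E', inferInstance, fun g hg => ?_⟩, fun g => ?_⟩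
  · apply Units.ext
    change sc ((θ g : ℂˣ) : ℂ) * (τ (inc hle g) : Matrix (Fin n) (Fin n) ℂ) = 1
    rw [hs' g (IntermediateField.fixingSubgroup_antitone le_sup_right hg),
      hs (inc hle g) (IntermediateField.fixingSubgroup_antitone le_sup_left hg)]
    rw [Units.val_one, Units.val_one, map_one, mul_one]
  · change _ = (sc ((θ g : ℂˣ) : ℂ) * (τ (inc hle g) : Matrix (Fin n) (Fin n) ℂ)).trace
    have h1 : sc ((θ g : ℂˣ) : ℂ) * (τ (inc hle g) : Matrix (Fin n) (Fin n) ℂ) =
        ((θ g : ℂˣ) : ℂ) • (τ (inc hle g) : Matrix (Fin n) (Fin n) ℂ) := by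
      change (Matrix.scalar (Fin n)) ((θ g : ℂˣ) : ℂ) * _ = _
      rw [Matrix.scalar_apply, ← Matrix.smul_one_eq_diagonal, Matrix.smul_mul, one_mul]
    rw [h1, Matrix.trace_smul, smul_eq_mul, mul_comm, ← hτ]

/-- characters are class functions -/
theorem isCharacter_conj {F : IntermediateField K (AlgebraicClosure K)}
    {χ : F.fixingSubgroup → ℂ} (h : IsCharacter F χ) (x g : F.fixingSubgroup) :
    χ (x⁻¹ * g * x) = χ g := by
  obtain ⟨n, τ, -, hτ⟩ := h
  rw [hτ, hτ, map_mul, map_mul, Units.val_mul, Units.val_mul, Matrix.trace_mul_cycle,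
    ← Units.val_mul, ← map_mul, mul_inv_cancel, map_one, Units.val_one, one_mul]

end

end Pool.Agent.Q213.ST
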