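import Pool.Agent.Q213.ST.Desc

set_option autoImplicit false
set_option linter.unusedSectionVars false

/-!
Number fields whose places above small primes have large local degree.
-/

namespace Pool.Agent.Q213.ST

open NumberField Polynomial
open scoped Classical

/-- For all primes `p ≤ N` and all prime ideals `P` of the ring of integers above `p` the
ramification index is at least `N` or the inertia degree is at least `N`, and there are at least
`N` complex places (that is `2 N` embeddings into `ℂ` that are not real). -/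
def Big (N : ℕ) (F : Type) [Field F] : Prop :=
  (∀ p : ℕ, p.Prime → p ≤ N → ∀ P : Ideal (𝓞 F), P.IsPrime → (p : 𝓞 F) ∈ P →
    (p : 𝓞 F) ∈ P ^ N ∨ p ^ N ≤ Nat.card (𝓞 F ⧸ P)) ∧
  2 * N ≤ Nat.card {φ : F →+* ℂ // ¬ ∀ x, (φ x).im = 0}

/-- the set of primes -/
noncomputable def ps (N : ℕ) : Finset ℕ := insert 2 ((Finset.range (N + 1)).filter Nat.Prime)

theorem ps_prime {N p : ℕ} (h : p ∈ ps N) : p.Prime := by
  unfold ps at h
  rw [Finset.mem_insert, Finset.mem_filter] at h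
  rcases h with rfl | h
  · exact Nat.prime_two
  · exact h.2

/-- the product of the primes -/
noncomputable def aa (N : ℕ) : ℕ := ∏ p ∈ ps N, p

theorem aa_split {N p : ℕ} (hp : p ∈ ps N) : ∃ m, aa N = p * m ∧ ¬ p ∣ m := by
  refine ⟨∏ q ∈ (ps N).erase p, q, (Finset.mul_prod_erase _ _ hp).symm, ?_⟩
  intro h
  obtain ⟨q, hq, hpq⟩ := (Prime.dvd_finsetProd_iff (ps_prime hp).prime _).1 h
  rw [Finset.mem_erase] at hq
  exact hq.1 (((Nat.prime_dvd_prime_iff_eq (ps_prime hp) (ps_prime hq.2)).1 hpq).symm)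

theorem aa_pos (N : ℕ) : 0 < aa N := Finset.prod_pos fun p hp => (ps_prime hp).pos

theorem aa_not_pow {N l : ℕ} (hl : l.Prime) (x : ℚ) : x ^ l ≠ (aa N : ℚ) := by
  intro h
  have h2 : (2 : ℕ) ∈ ps N := by unfold ps; exact Finset.mem_insert_self _ _
  obtain ⟨m, hm, hm2⟩ := aa_split h2
  have hm0 : m ≠ 0 := by
    rintro rfl
    exact hm2 (dvd_zero 2)
  have hx : x ≠ 0 := by
    rintro rfl
    rw [zero_pow hl.ne_zero] at h
    have := aa_pos N
    have h3 : (aa N : ℚ) = 0 := h.symm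
    rw [Nat.cast_eq_zero] at h3
    omega
  have : Fact (Nat.Prime 2) := ⟨Nat.prime_two⟩
  have h3 := congrArg (padicValRat 2) h
  rw [padicValRat.pow, padicValRat.of_nat, hm, padicValNat.mul two_ne_zero hm0,
    padicValNat.self one_lt_two, padicValNat.eq_zero_of_not_dvd hm2] at h3
  push_cast at h3
  have h4 : (l : ℤ) ∣ 1 := ⟨_, by linarith⟩
  have h5 := Int.natAbs_dvd_natAbs.2 h4
  simp at h5
  exact hl.one_lt.ne' h5

theorem degree_b {N l : ℕ} (hl : l.Prime) {L : Type} [Field L] [NumberField L] (b : L)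
    (h : b ^ l = (aa N : L)) : l ≤ Module.finrank ℚ L := by
  have hirr : Irreducible (X ^ l - C (aa N : ℚ) : ℚ[X]) :=
    X_pow_sub_C_irreducible_of_prime hl (fun x => aa_not_pow hl x)
  have hmon : (X ^ l - C (aa N : ℚ) : ℚ[X]).Monic := monic_X_pow_sub_C _ hl.ne_zero
  have hroot : aeval b (X ^ l - C (aa N : ℚ) : ℚ[X]) = 0 := by
    rw [map_sub, map_pow, aeval_X, aeval_C, h]
    simp
  have hmin := minpoly.eq_of_irreducible_of_monic hirr hroot hmon
  have h1 := (minpoly.natDegree_le b : (minpoly ℚ b).natDegree ≤ Module.finrank ℚ L)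
  rw [← hmin, natDegree_X_pow_sub_C] at h1
  exact h1

theorem primes_b {N l : ℕ} (hl : l.Prime) (hN : N ≤ l) {L : Type} [Field L] [NumberField L]
    (b : L) (h : b ^ l = (aa N : L)) (p : ℕ) (hp : p.Prime) (hpN : p ≤ N) (P : Ideal (𝓞 L))
    (hP : P.IsPrime) (hpP : (p : 𝓞 L) ∈ P) : (p : 𝓞 L) ∈ P ^ N := by
  have hps : p ∈ ps N := by
    unfold ps
    rw [Finset.mem_insert, Finset.mem_filter, Finset.mem_range]
    exact Or.inr ⟨by omega, hp⟩
  obtain ⟨m, hm, hpm⟩ := aa_split hps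
  have hint : IsIntegral ℤ b := by
    apply IsIntegral.of_pow hl.pos
    rw [h]
    have h0 := isIntegral_algebraMap (R := ℤ) (A := L) (x := (aa N : ℤ))
    simpa using h0
  let β : 𝓞 L := ⟨b, hint⟩
  have hβ : β ^ l = (p : 𝓞 L) * (m : 𝓞 L) := by
    apply RingOfIntegers.ext
    change b ^ l = (((p : 𝓞 L) * (m : 𝓞 L) : 𝓞 L) : L)
    rw [h, hm]
    push_cast
    simp
  have h1 : β ∈ P := by
    apply hP.mem_of_pow_mem l
    rw [hβ]
    exact P.mul_mem_right _ hpP
  have h2 : (m : 𝓞 L) * (p : 𝓞 L) ∈ P ^ l := by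
    rw [mul_comm, ← hβ]
    exact Ideal.pow_mem_pow h1 l
  have h3 : (m : 𝓞 L) ∉ P := by
    intro hmP
    have hcop : IsCoprime (p : ℤ) (m : ℤ) := by
      rw [Nat.isCoprime_iff_coprime]
      exact (Nat.Prime.coprime_iff_not_dvd hp).2 hpm
    obtain ⟨u, v, huv⟩ := hcop
    apply hP.ne_top
    rw [Ideal.eq_top_iff_one]
    have h4 : (1 : 𝓞 L) = (u : 𝓞 L) * (p : 𝓞 L) + (v : 𝓞 L) * (m : 𝓞 L) := by
      have h5 := congrArg (Int.cast : ℤ → 𝓞 L) huv
      push_cast at h5
      exact h5.symm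
    rw [h4]
    exact P.add_mem (P.mul_mem_left _ hpP) (P.mul_mem_left _ hmP)
  rcases hP.mul_mem_pow P h2 with h4 | h4
  · exact absurd h4 h3
  · exact Ideal.pow_le_pow_right hN h4

theorem primes_zeta {N l : ℕ} (hl : l.Prime) (hN : N < l) (hN2 : N ^ N ≤ l) {L : Type} [Field L]
    [NumberField L] (ζ : L) (hζ : IsPrimitiveRoot ζ l) (p : ℕ) (hp : p.Prime) (hpN : p ≤ N)
    (P : Ideal (𝓞 L)) (hP : P.IsPrime) (hpP : (p : 𝓞 L) ∈ P) :
    p ^ N ≤ Nat.card (𝓞 L ⧸ P) := by
  have hint : IsIntegral ℤ ζ := hζ.isIntegral hl.pos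
  let z : 𝓞 L := ⟨ζ, hint⟩
  have hz : IsPrimitiveRoot z l := by
    have h1 : IsPrimitiveRoot (algebraMap (𝓞 L) L z) l := hζ
    exact IsPrimitiveRoot.of_map_of_injective h1 RingOfIntegers.coe_injective
  have hlP : (l : 𝓞 L) ∉ P := by
    intro hmP
    have hcop : IsCoprime (p : ℤ) (l : ℤ) := by
      rw [Nat.isCoprime_iff_coprime]
      refine (Nat.Prime.coprime_iff_not_dvd hp).2 (fun hd => ?_)
      rw [Nat.prime_dvd_prime_iff_eq hp hl] at hd
      omega
    obtain ⟨u, v, huv⟩ := hcop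
    apply hP.ne_top
    rw [Ideal.eq_top_iff_one]
    have h4 : (1 : 𝓞 L) = (u : 𝓞 L) * (p : 𝓞 L) + (v : 𝓞 L) * (l : 𝓞 L) := by
      have h5 := congrArg (Int.cast : ℤ → 𝓞 L) huv
      push_cast at h5
      exact h5.symm
    rw [h4]
    exact P.add_mem (P.mul_mem_left _ hpP) (P.mul_mem_left _ hmP)
  have hPb : P ≠ ⊥ := by
    rintro rfl
    rw [Ideal.mem_bot] at hpP
    exact hp.ne_zero (by exact_mod_cast hpP)
  have hfin : Finite (𝓞 L ⧸ P) := Ideal.finiteQuotientOfFreeOfNeBot P hPb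
  have hdom : IsDomain (𝓞 L ⧸ P) := Ideal.Quotient.isDomain P
  let q := Ideal.Quotient.mk P
  have hq1 : q z ≠ 1 := by
    intro h
    apply hlP
    have h1 : ∑ i ∈ Finset.range l, z ^ i = 0 := hz.geom_sum_eq_zero hl.one_lt
    have h2 : q (∑ i ∈ Finset.range l, z ^ i) = (l : 𝓞 L ⧸ P) := by
      rw [map_sum]
      simp [h]
    rw [h1, map_zero] at h2
    rw [← Ideal.Quotient.eq_zero_iff_mem, map_natCast]
    exact h2.symm
  have hql : (q z) ^ l = 1 := by rw [← map_pow, hz.pow_eq_one, map_one]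
  have hprim : IsPrimitiveRoot (q z) l := by
    have : Fact l.Prime := ⟨hl⟩
    have h1 : orderOf (q z) = l := orderOf_eq_prime hql hq1
    rw [← h1]
    exact IsPrimitiveRoot.orderOf (q z)
  have hcard : l ≤ Nat.card (𝓞 L ⧸ P) := by
    have h1 : Function.Injective (fun i : Fin l => (q z) ^ (i : ℕ)) := by
      intro i j hij
      exact Fin.ext (hprim.pow_inj i.2 j.2 hij)
    have h2 := Nat.card_le_card_of_injective _ h1
    rwa [Nat.card_fin] at h2
  calc p ^ N ≤ N ^ N := Nat.pow_le_pow_left hpN N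
    _ ≤ l := hN2
    _ ≤ _ := hcard

/-- real embeddings and complex embeddings -/
theorem card_split (L : Type) [Field L] [NumberField L] :
    Nat.card {φ : L →+* ℂ // ¬ ∀ x, (φ x).im = 0} +
      Nat.card {φ : L →+* ℂ // ∀ x, (φ x).im = 0} = Module.finrank ℚ L := by
  rw [← Embeddings.card L ℂ, ← Nat.card_eq_fintype_card, add_comm]
  have h : Finite (L →+* ℂ) := inferInstance
  rw [← Nat.card_sum]
  exact Nat.card_congr (Equiv.sumCompl (fun φ : L →+* ℂ => ∀ x, (φ x).im = 0))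

theorem not_real_zeta {l : ℕ} (hl : l.Prime) (h2 : 2 < l) {L : Type} [Field L] (ζ : L)
    (hζ : IsPrimitiveRoot ζ l) (φ : L →+* ℂ) : ¬ ∀ x, (φ x).im = 0 := by
  intro h
  have h1 : IsPrimitiveRoot (φ ζ) l := hζ.map_of_injective φ.injective
  have h3 : φ ζ = ((φ ζ).re : ℂ) := by
    apply Complex.ext
    · rw [Complex.ofReal_re]
    · rw [h ζ, Complex.ofReal_im]
  have h4 : ((φ ζ).re) ^ l = 1 := by
    have h5 := h1.pow_eq_one
    rw [h3] at h5
    exact_mod_cast h5
  have hodd : Odd l := hl.odd_of_ne_two (by omega)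
  have h6 : (φ ζ).re = 1 := by
    have h7 : (φ ζ).re ^ l = 1 ^ l := by rw [h4, one_pow]
    exact hodd.strictMono_pow.injective h7
  rw [h6] at h3
  have h8 := h1.ne_one hl.one_lt
  apply h8
  rw [h3, Complex.ofReal_one]

theorem complex_zeta {N l : ℕ} (hl : l.Prime) (h2 : 2 < l) (hN : 2 * N < l) {L : Type} [Field L]
    [NumberField L] (ζ : L) (hζ : IsPrimitiveRoot ζ l) :
    2 * N ≤ Nat.card {φ : L →+* ℂ // ¬ ∀ x, (φ x).im = 0} := by
  have h3 := card_split L
  have h4 : Nat.card {φ : L →+* ℂ // ∀ x, (φ x).im = 0} = 0 := by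
    have : IsEmpty {φ : L →+* ℂ // ∀ x, (φ x).im = 0} :=
      ⟨fun φ => not_real_zeta hl h2 ζ hζ φ.1 φ.2⟩
    exact Nat.card_of_isEmpty
  have h5 : l - 1 ≤ Module.finrank ℚ L := by
    have h6 := (minpoly.natDegree_le ζ : (minpoly ℚ ζ).natDegree ≤ Module.finrank ℚ L)
    rw [← Polynomial.cyclotomic_eq_minpoly_rat hζ hl.pos, Polynomial.natDegree_cyclotomic,
      Nat.totient_prime hl] at h6
    exact h6
  omega

theorem complex_b {N l : ℕ} (hl : l.Prime) (h2 : 2 < l) {F L : Type} [Field F] [NumberField F]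
    [Field L] [NumberField L] (i : F →+* L) (b : L) (h : b ^ l = (aa N : L))
    (hgen : ∀ φ φ' : L →+* ℂ, (∀ x, φ (i x) = φ' (i x)) → φ b = φ' b → φ = φ')
    (hN : 2 * N + Module.finrank ℚ F ≤ l) :
    2 * N ≤ Nat.card {φ : L →+* ℂ // ¬ ∀ x, (φ x).im = 0} := by
  have h3 := card_split L
  have h4 := degree_b hl b h
  have h5 : Nat.card {φ : L →+* ℂ // ∀ x, (φ x).im = 0} ≤ Module.finrank ℚ F := by
    rw [← Embeddings.card F ℂ, ← Nat.card_eq_fintype_card]
    refine Nat.card_le_card_of_injective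
      (fun φ : {φ : L →+* ℂ // ∀ x, (φ x).im = 0} => φ.1.comp i) ?_
    rintro ⟨φ, hφ⟩ ⟨φ', hφ'⟩ hc
    apply Subtype.ext
    refine hgen φ φ' (fun x => DFunLike.congr_fun hc x) ?_
    have hre : ∀ φ : L →+* ℂ, (∀ x, (φ x).im = 0) → φ b = (((φ b).re : ℝ) : ℂ) := by
      intro φ hφ
      apply Complex.ext
      · rw [Complex.ofReal_re]
      · rw [hφ b, Complex.ofReal_im]
    have hp : ∀ φ : L →+* ℂ, (∀ x, (φ x).im = 0) → ((φ b).re) ^ l = (aa N : ℝ) := by
      intro φ hφ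
      have h6 : (φ b) ^ l = (aa N : ℂ) := by
        rw [← map_pow, h, map_natCast]
      rw [hre φ hφ] at h6
      exact_mod_cast h6
    have hodd : Odd l := hl.odd_of_ne_two (by omega)
    have h7 : (φ b).re = (φ' b).re := by
      apply hodd.strictMono_pow.injective
      change (φ b).re ^ l = (φ' b).re ^ l
      rw [hp φ hφ, hp φ' hφ']
    rw [hre φ hφ, hre φ' hφ', h7]
  omega

section
variable {K : Type} [Field K] [NumberField K]

theorem nf (F : IntermediateField K (AlgebraicClosure K)) [FiniteDimensional K F] :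
    NumberField F := by
  have h : FiniteDimensional ℚ F := Module.Finite.trans K F
  exact ⟨⟩

/-- ring homomorphisms on `F(b)` -/
theorem hom_ext (F : IntermediateField K (AlgebraicClosure K)) (b : AlgebraicClosure K)
    (φ φ' : ad F b →+* ℂ)
    (h1 : ∀ (x : AlgebraicClosure K) (hx : x ∈ F) (hx' : x ∈ ad F b), φ ⟨x, hx'⟩ = φ' ⟨x, hx'⟩)
    (h2 : ∀ hb : b ∈ ad F b, φ ⟨b, hb⟩ = φ' ⟨b, hb⟩) : φ = φ' := by
  let S : Subfield (AlgebraicClosure K) :=
    (RingHom.eqLocusField φ φ').map (algebraMap (ad F b) (AlgebraicClosure K))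
  have hS : ∀ x, x ∈ S ↔ ∃ hx : x ∈ ad F b, φ ⟨x, hx⟩ = φ' ⟨x, hx⟩ := by
    intro x
    constructor
    · rintro ⟨y, hy, rfl⟩
      exact ⟨y.2, hy⟩
    · rintro ⟨hx, h⟩
      exact ⟨⟨x, hx⟩, h, rfl⟩
  have hFS : ∀ x ∈ F, x ∈ S := by
    intro x hx
    have hx' : x ∈ ad F b := (le_sup_left : F ≤ ad F b) hx
    exact (hS x).2 ⟨hx', h1 x hx hx'⟩
  let T : IntermediateField K (AlgebraicClosure K) :=
    S.toIntermediateField (fun x => hFS _ (F.algebraMap_mem x))
  have hT : ad F b ≤ T := by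
    apply sup_le
    · exact fun x hx => hFS x hx
    · rw [IntermediateField.adjoin_simple_le_iff]
      have hb : b ∈ ad F b :=
        (le_sup_right : IntermediateField.adjoin K {b} ≤ ad F b)
          (IntermediateField.mem_adjoin_simple_self K b)
      exact (hS b).2 ⟨hb, h2 hb⟩
  apply RingHom.ext
  rintro ⟨x, hx⟩
  obtain ⟨hx', h⟩ := (hS x).1 (hT hx)
  exact h

/-- the choice of the pure extension -/
theorem exists_pure (F : IntermediateField K (AlgebraicClosure K)) [FiniteDimensional K F]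
    (N : ℕ) : ∃ (l : ℕ) (ζ b : AlgebraicClosure K), l.Prime ∧ 2 < l ∧ PureData F l ζ b ∧
      Big N (ad F ζ) ∧ Big N (ad F b) := by
  have hF : NumberField F := nf F
  obtain ⟨l, hlN, hl⟩ := Nat.exists_infinite_primes (N ^ N + 2 * N + Module.finrank ℚ F + 3)
  have hl0 : NeZero (l : AlgebraicClosure K) := ⟨by exact_mod_cast hl.ne_zero⟩
  obtain ⟨ζ, hζ⟩ := HasEnoughRootsOfUnity.exists_primitiveRoot (AlgebraicClosure K) l
  obtain ⟨b, hb⟩ := IsAlgClosed.exists_pow_nat_eq ((aa N : ℕ) : AlgebraicClosure K) hl.pos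
  refine ⟨l, ζ, b, hl, by omega, ⟨hζ, ?_, ?_⟩, ?_, ?_⟩
  · rw [hb]
    exact natCast_mem F (aa N)
  · intro y hy h
    have h1 := degree_b (N := N) hl (⟨y, hy⟩ : F) (by
      apply Subtype.ext
      change y ^ l = _
      rw [h, hb]
      rfl)
    omega
  · have hn : NumberField (ad F ζ) := nf _
    have hmem : ζ ∈ ad F ζ :=
      (le_sup_right : IntermediateField.adjoin K {ζ} ≤ ad F ζ)
        (IntermediateField.mem_adjoin_simple_self K ζ)
    have hζ' : IsPrimitiveRoot (⟨ζ, hmem⟩ : ad F ζ) l :=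
      IsPrimitiveRoot.of_map_of_injective (f := algebraMap (ad F ζ) (AlgebraicClosure K)) hζ
        (algebraMap (ad F ζ) (AlgebraicClosure K)).injective
    refine ⟨fun p hp hpN P hP hpP => Or.inr ?_, ?_⟩
    · exact primes_zeta hl (by omega) (by omega) _ hζ' p hp hpN P hP hpP
    · exact complex_zeta hl (by omega) (by omega) _ hζ'
  · have hn : NumberField (ad F b) := nf _
    have hmem : b ∈ ad F b :=
      (le_sup_right : IntermediateField.adjoin K {b} ≤ ad F b)
        (IntermediateField.mem_adjoin_simple_self K b)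
    have hb' : (⟨b, hmem⟩ : ad F b) ^ l = ((aa N : ℕ) : ad F b) := by
      apply Subtype.ext
      change b ^ l = _
      rw [hb]
      rfl
    refine ⟨fun p hp hpN P hP hpP => Or.inl ?_, ?_⟩
    · exact primes_b hl (by omega) _ hb' p hp hpN P hP hpP
    · refine complex_b (F := F) hl (by omega)
        (IntermediateField.inclusion (le_sup_left : F ≤ ad F b)).toRingHom _ hb' ?_ (by omega)
      intro φ φ' h1 h2
      apply hom_ext
      · intro x hx hx'
        exact h1 ⟨x, hx⟩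
      · intro hb
        exact h2

end

end Pool.Agent.Q213.ST
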