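import Pool.Agent.Q213.ST.Aff
import Pool.Agent.Q213.ST.IndCh

set_option autoImplicit false
set_option linter.unusedSectionVars false

/-!
The relation between a number field `F`, `F(ζ_l)` and `F(b)`, `b^l ∈ F`.
-/

namespace Pool.Agent.Q213.ST

open Pool.Agent.Q246.BI
open scoped Classical

section pows
variable {A : Type} [Field A] {l : ℕ} [hl : Fact l.Prime] {ζ : A} (hζ : IsPrimitiveRoot ζ l)
include hζ

theorem z_nat (m : ℕ) : ζ ^ ((m : ZMod l)).val = ζ ^ m := by
  rw [ZMod.val_natCast]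
  conv_rhs => rw [← Nat.div_add_mod m l, pow_add, pow_mul, hζ.pow_eq_one, one_pow, one_mul]

theorem z_add (x y : ZMod l) : ζ ^ (x + y).val = ζ ^ x.val * ζ ^ y.val := by
  have h1 : x + y = ((x.val + y.val : ℕ) : ZMod l) := by
    push_cast
    rw [ZMod.natCast_zmod_val, ZMod.natCast_zmod_val]
  rw [h1, z_nat hζ, pow_add]

theorem z_mul (x y : ZMod l) : ζ ^ (x * y).val = (ζ ^ x.val) ^ y.val := by
  have h1 : x * y = ((x.val * y.val : ℕ) : ZMod l) := by
    push_cast
    rw [ZMod.natCast_zmod_val, ZMod.natCast_zmod_val]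
  rw [h1, z_nat hζ, pow_mul]

theorem z_inj {x y : ZMod l} (h : ζ ^ x.val = ζ ^ y.val) : x = y :=
  ZMod.val_injective l (hζ.pow_inj (ZMod.val_lt x) (ZMod.val_lt y) h)

end pows

section
variable {K : Type} [Field K] [NumberField K]

/-- the field generated by one element over `F` -/
noncomputable abbrev ad (F : IntermediateField K (AlgebraicClosure K)) (x : AlgebraicClosure K) :
    IntermediateField K (AlgebraicClosure K) := F ⊔ IntermediateField.adjoin K {x}

theorem mem_ad_fix {F : IntermediateField K (AlgebraicClosure K)} {x : AlgebraicClosure K}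
    (g : Gal(AlgebraicClosure K/K)) :
    g ∈ (ad F x).fixingSubgroup ↔ g ∈ F.fixingSubgroup ∧ g x = x := by
  unfold ad
  rw [IntermediateField.fixingSubgroup_sup, Subgroup.mem_inf]
  refine and_congr_right fun _ => ?_
  rw [IntermediateField.mem_fixingSubgroup_iff]
  have h := IntermediateField.forall_mem_adjoin_smul_eq_self_iff (F := K) (S := {x}) g
  constructor
  · intro h1
    exact h1 x (IntermediateField.mem_adjoin_simple_self K x)
  · intro h1
    exact h.2 (fun y hy => by
      rw [Set.mem_singleton_iff] at hy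
      rw [hy]
      exact h1)

instance ad_fin (F : IntermediateField K (AlgebraicClosure K)) [FiniteDimensional K F]
    (x : AlgebraicClosure K) : FiniteDimensional K (ad F x) := by
  have h1 : FiniteDimensional K (IntermediateField.adjoin K {x}) :=
    IntermediateField.adjoin.finiteDimensional (Algebra.IsIntegral.isIntegral x)
  exact IntermediateField.finiteDimensional_sup _ _

variable {l : ℕ} [hl : Fact l.Prime] {ζ b : AlgebraicClosure K}

/-- the data of a pure extension -/
structure PureData (F : IntermediateField K (AlgebraicClosure K)) (l : ℕ)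
    (ζ b : AlgebraicClosure K) : Prop where
  prim : IsPrimitiveRoot ζ l
  mem : b ^ l ∈ F
  npow : ∀ y ∈ F, y ^ l ≠ b ^ l

section
variable {F : IntermediateField K (AlgebraicClosure K)} (hd : PureData F l ζ b)
include hd

theorem b_ne : b ≠ 0 := by
  intro h
  apply hd.npow 0 F.zero_mem
  rw [h]

theorem exists_c (g : F.fixingSubgroup) : ∃ t : ZMod l,
    (g : Gal(AlgebraicClosure K/K)) b = ζ ^ t.val * b := by
  have hb := b_ne hd
  have h1 : (g : Gal(AlgebraicClosure K/K)) (b ^ l) = b ^ l :=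
    (IntermediateField.mem_fixingSubgroup_iff _ _).1 g.2 _ hd.mem
  have h2 : ((g : Gal(AlgebraicClosure K/K)) b / b) ^ l = 1 := by
    rw [div_pow, ← map_pow, h1, div_self (pow_ne_zero _ hb)]
  have hl0 : NeZero l := ⟨hl.out.ne_zero⟩
  obtain ⟨i, hi, h3⟩ := hd.prim.eq_pow_of_pow_eq_one h2
  refine ⟨(i : ZMod l), ?_⟩
  rw [z_nat hd.prim, h3, div_mul_cancel₀ _ hb]

omit hd hl in
/-- the Kummer cocycle -/
theorem exists_cocycle (hl : Fact l.Prime) (hd : PureData F l ζ b) :
    ∃ (κ : F.fixingSubgroup →* (ZMod l)ˣ) (c : F.fixingSubgroup → ZMod l),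
      (∀ g : F.fixingSubgroup, (g : Gal(AlgebraicClosure K/K)) ζ =
        ζ ^ ((κ g : (ZMod l)ˣ) : ZMod l).val) ∧
      (∀ g : F.fixingSubgroup, (g : Gal(AlgebraicClosure K/K)) b = ζ ^ (c g).val * b) ∧
      (∀ g h, c (g * h) = c g + (κ g : ZMod l) * c h) ∧
      (∀ g : F.fixingSubgroup, κ g = 1 ↔ (g : Gal(AlgebraicClosure K/K)) ζ = ζ) ∧
      (∀ g : F.fixingSubgroup, c g = 0 ↔ (g : Gal(AlgebraicClosure K/K)) b = b) ∧
      Function.Surjective c := by
  have hl0 : NeZero l := ⟨hl.out.ne_zero⟩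
  have hb := b_ne hd
  have hζ := hd.prim
  let κ : F.fixingSubgroup →* (ZMod l)ˣ := (hζ.autToPow K).comp F.fixingSubgroup.subtype
  have hκ : ∀ g : F.fixingSubgroup, (g : Gal(AlgebraicClosure K/K)) ζ =
      ζ ^ ((κ g : (ZMod l)ˣ) : ZMod l).val := fun g =>
    (hζ.autToPow_spec K (g : Gal(AlgebraicClosure K/K))).symm
  choose c hc using exists_c (l := l) hd
  have hcoc : ∀ g h, c (g * h) = c g + (κ g : ZMod l) * c h := by
    intro g h
    apply z_inj hζ
    apply mul_right_cancel₀ hb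
    rw [← hc (g * h), z_add hζ, z_mul hζ]
    change (g : Gal(AlgebraicClosure K/K)) ((h : Gal(AlgebraicClosure K/K)) b) = _
    rw [hc h, map_mul, map_pow, hκ g, hc g]
    ring
  refine ⟨κ, c, hκ, hc, hcoc, ?_, ?_, ?_⟩
  · intro g
    rw [hκ g]
    constructor
    · intro h
      rw [h, Units.val_one]
      have h1 := z_nat hζ 1
      rw [Nat.cast_one, pow_one] at h1
      exact h1
    · intro h
      apply Units.ext
      rw [Units.val_one]
      apply z_inj hζ
      have h1 := z_nat hζ 1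
      rw [Nat.cast_one, pow_one] at h1
      rw [h, h1]
  · intro g
    rw [hc g]
    constructor
    · intro h
      rw [h, ZMod.val_zero, pow_zero, one_mul]
    · intro h
      apply z_inj hζ
      rw [ZMod.val_zero, pow_zero]
      have h1 : ζ ^ (c g).val * b = 1 * b := by rw [h, one_mul]
      exact mul_right_cancel₀ hb h1
  · intro t
    let a : F := ⟨b ^ l, hd.mem⟩
    have hirr : Irreducible (Polynomial.X ^ l - Polynomial.C a : Polynomial F) := by
      apply X_pow_sub_C_irreducible_of_prime hl.out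
      intro y hy
      apply hd.npow y y.2
      have := congrArg (Subtype.val) hy
      simpa [a] using this
    have hmon : (Polynomial.X ^ l - Polynomial.C a : Polynomial F).Monic :=
      Polynomial.monic_X_pow_sub_C a hl.out.ne_zero
    have hroot : Polynomial.aeval b (Polynomial.X ^ l - Polynomial.C a : Polynomial F) = 0 := by
      rw [map_sub, map_pow, Polynomial.aeval_X, Polynomial.aeval_C]
      change b ^ l - b ^ l = 0
      rw [sub_self]
    have hmin : minpoly F b = Polynomial.X ^ l - Polynomial.C a :=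
      (minpoly.eq_of_irreducible_of_monic hirr hroot hmon).symm
    have hroot' : Polynomial.aeval (ζ ^ t.val * b) (minpoly F b) = 0 := by
      rw [hmin, map_sub, map_pow, Polynomial.aeval_X, Polynomial.aeval_C, mul_pow, ← pow_mul,
        mul_comm t.val, pow_mul, hζ.pow_eq_one, one_pow, one_mul]
      change b ^ l - b ^ l = 0
      rw [sub_self]
    have hnor : Normal F (AlgebraicClosure K) := Normal.tower_top_of_normal K F _
    obtain ⟨σ, hσ⟩ := minpoly.exists_algEquiv_of_root' (K := F) (L := AlgebraicClosure K)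
      (Algebra.IsAlgebraic.isAlgebraic b) hroot'
    let g : F.fixingSubgroup := (IntermediateField.fixingSubgroupEquiv F).symm σ
    refine ⟨g, ?_⟩
    apply z_inj hζ
    apply mul_right_cancel₀ hb
    rw [← hc g]
    exact hσ

/-- the relation of characters -/
theorem char_relation (hF : FiniteDimensional K F) (χ : F.fixingSubgroup → ℂ)
    (hχ : ∀ x g : F.fixingSubgroup, χ (x⁻¹ * g * x) = χ g) :
    ∃ (n : ℕ) (θ : Fin n → ((ad F ζ).fixingSubgroup →* ℂˣ)), (∀ i, Smooth (ad F ζ) (θ i)) ∧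
      χ + ∑ i, induced F (ad F ζ)
        (fun g => χ (inc (le_sup_left : F ≤ ad F ζ) g) * ((θ i g : ℂˣ) : ℂ)) =
      induced F (ad F b) (fun g => χ (inc (le_sup_left : F ≤ ad F b) g)) := by
  obtain ⟨κ, c, hκ, hcb, hcoc, hκ1, hc0, hsurj⟩ := exists_cocycle hl hd
  have hl0 : NeZero l := ⟨hl.out.ne_zero⟩
  let e : AddChar (ZMod l) ℂ := ZMod.stdAddChar
  have he : e ≠ 1 := by
    intro h
    have h1 := ZMod.isPrimitive_stdAddChar l
    have h2 := h1 (one_ne_zero : (1 : ZMod l) ≠ 0)
    apply h2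
    rw [AddChar.mulShift_one]
    exact h
  let U1 : Subgroup F.fixingSubgroup := (ad F ζ).fixingSubgroup.subgroupOf F.fixingSubgroup
  let U2 : Subgroup F.fixingSubgroup := (ad F b).fixingSubgroup.subgroupOf F.fixingSubgroup
  have hU1 : ∀ g, g ∈ U1 ↔ κ g = 1 := by
    intro g
    rw [Subgroup.mem_subgroupOf, mem_ad_fix, hκ1]
    exact ⟨fun h => h.2, fun h => ⟨g.2, h⟩⟩
  have hU2 : ∀ g, g ∈ U2 ↔ c g = 0 := by
    intro g
    rw [Subgroup.mem_subgroupOf, mem_ad_fix, hc0]
    exact ⟨fun h => h.2, fun h => ⟨g.2, h⟩⟩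
  have hrel := aff_relation κ c hcoc hsurj U1 U2 hU1 hU2 e he
  -- the linear characters
  have hincU : ∀ g : (ad F ζ).fixingSubgroup, κ (inc (le_sup_left : F ≤ ad F ζ) g) = 1 := by
    intro g
    rw [hκ1]
    exact ((mem_ad_fix _).1 g.2).2
  let Θ : (ZMod l)ˣ → ((ad F ζ).fixingSubgroup →* ℂˣ) := fun u => MonoidHom.toHomUnits
    { toFun := fun g => e ((u : ZMod l) * c (inc (le_sup_left : F ≤ ad F ζ) g))
      map_one' := by
        rw [map_one, c_one κ c hcoc, mul_zero, AddChar.map_zero_eq_one]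
      map_mul' := fun g h => by
        rw [map_mul (inc (le_sup_left : F ≤ ad F ζ)), hcoc, hincU g, Units.val_one, one_mul,
          mul_add, AddChar.map_add_eq_mul] }
  have hΘ : ∀ u g, ((Θ u g : ℂˣ) : ℂ) =
      e ((u : ZMod l) * c (inc (le_sup_left : F ≤ ad F ζ) g)) := fun u g => rfl
  have hsm : ∀ u, Smooth (ad F ζ) (Θ u) := by
    intro u
    refine ⟨ad F b, inferInstance, fun g hg => ?_⟩
    apply Units.ext
    rw [hΘ, Units.val_one]
    have h1 : c (inc (le_sup_left : F ≤ ad F ζ) g) = 0 := by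
      rw [hc0]
      exact ((mem_ad_fix _).1 hg).2
    rw [h1, mul_zero, AddChar.map_zero_eq_one]
  let eq := Fintype.equivFin ((ZMod l)ˣ ⧸ κ.range)
  refine ⟨_, fun i => Θ (eq.symm i).out, fun i => hsm _, ?_⟩
  funext g
  rw [Pi.add_apply, Finset.sum_apply]
  have hs : ∑ i, induced F (ad F ζ) (fun g => χ (inc (le_sup_left : F ≤ ad F ζ) g) *
      ((Θ (eq.symm i).out g : ℂˣ) : ℂ)) g =
      ∑ q : (ZMod l)ˣ ⧸ κ.range, induced F (ad F ζ)
        (fun g => χ (inc (le_sup_left : F ≤ ad F ζ) g) * ((Θ q.out g : ℂˣ) : ℂ)) g :=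
    Fintype.sum_equiv eq.symm _ _ (fun i => rfl)
  rw [hs]
  have hfin1 : Finite (F.fixingSubgroup ⧸ U1) := nn_finite F (ad F ζ)
  have : Fintype (F.fixingSubgroup ⧸ U1) := Fintype.ofFinite _
  have hfin2 : Finite (F.fixingSubgroup ⧸ U2) := nn_finite F (ad F b)
  have : Fintype (F.fixingSubgroup ⧸ U2) := Fintype.ofFinite _
  have h1 : ∀ q : (ZMod l)ˣ ⧸ κ.range, induced F (ad F ζ)
      (fun g => χ (inc (le_sup_left : F ≤ ad F ζ) g) * ((Θ q.out g : ℂˣ) : ℂ)) g =
      χ g * ∑ᶠ x : F.fixingSubgroup ⧸ U1,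
      (if x.out⁻¹ * g * x.out ∈ U1 then
        e (((q.out : (ZMod l)ˣ) : ZMod l) * c (x.out⁻¹ * g * x.out)) else 0) := by
    intro q
    unfold induced
    rw [finsum_eq_sum_of_fintype, finsum_eq_sum_of_fintype, Finset.mul_sum]
    refine Finset.sum_congr rfl fun x _ => ?_
    by_cases hx : ((x.out⁻¹ * g * x.out : F.fixingSubgroup) : Gal(AlgebraicClosure K/K)) ∈
        (ad F ζ).fixingSubgroup
    · have hx' : x.out⁻¹ * g * x.out ∈ U1 := hx
      rw [dif_pos hx, if_pos hx']
      change χ (x.out⁻¹ * g * x.out) * e ((q.out : ZMod l) * c (x.out⁻¹ * g * x.out)) = _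
      rw [hχ]
    · have hx' : ¬ x.out⁻¹ * g * x.out ∈ U1 := hx
      rw [dif_neg hx, if_neg hx', mul_zero]
  have h2 : induced F (ad F b) (fun g => χ (inc (le_sup_left : F ≤ ad F b) g)) g =
      χ g * ∑ᶠ x : F.fixingSubgroup ⧸ U2,
        (if x.out⁻¹ * g * x.out ∈ U2 then (1 : ℂ) else 0) := by
    unfold induced
    rw [finsum_eq_sum_of_fintype, finsum_eq_sum_of_fintype, Finset.mul_sum]
    refine Finset.sum_congr rfl fun x _ => ?_
    by_cases hx : ((x.out⁻¹ * g * x.out : F.fixingSubgroup) : Gal(AlgebraicClosure K/K)) ∈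
        (ad F b).fixingSubgroup
    · have hx' : x.out⁻¹ * g * x.out ∈ U2 := hx
      rw [dif_pos hx, if_pos hx', mul_one]
      change χ (x.out⁻¹ * g * x.out) = _
      rw [hχ]
    · have hx' : ¬ x.out⁻¹ * g * x.out ∈ U2 := hx
      rw [dif_neg hx, if_neg hx', mul_zero]
  rw [h2, ← hrel g, mul_add, mul_one, Finset.mul_sum]
  congr 1
  exact Finset.sum_congr rfl fun q _ => h1 q

end

end

end Pool.Agent.Q213.ST
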